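import Pool.Agent.LibK2Tower.Tower

/-!
Steinberg symbols and Milnor's group `K_2` of a field.
-/

set_option autoImplicit false

open Module

namespace Pool.Agent.LibK2Tower

/-- A Steinberg symbol on the field `E` with values in the abelian group `G`. -/
structure IsSymbol {E G : Type*} [Field E] [AddCommGroup G] (c : Eˣ → Eˣ → G) : Prop where
  mul_left : ∀ u v w, c (u * v) w = c u w + c v w
  mul_right : ∀ u v w, c u (v * w) = c u v + c u w
  steinberg : ∀ u v : Eˣ, (u : E) + (v : E) = 1 → c u v = 0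

namespace IsSymbol

variable {E G : Type*} [Field E] [AddCommGroup G] {c : Eˣ → Eˣ → G}

theorem one_left (h : IsSymbol c) (v : Eˣ) : c 1 v = 0 := by
  have := h.mul_left 1 1 v
  rw [mul_one] at this
  simpa using this

theorem one_right (h : IsSymbol c) (v : Eˣ) : c v 1 = 0 := by
  have := h.mul_right v 1 1
  rw [mul_one] at this
  simpa using this

theorem inv_left (h : IsSymbol c) (u v : Eˣ) : c u⁻¹ v = - c u v := by
  have := h.mul_left u u⁻¹ v
  rw [mul_inv_cancel, h.one_left] at this
  exact (neg_eq_of_add_eq_zero_right this.symm).symm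

theorem inv_right (h : IsSymbol c) (u v : Eˣ) : c u v⁻¹ = - c u v := by
  have := h.mul_right u v v⁻¹
  rw [mul_inv_cancel, h.one_right] at this
  exact (neg_eq_of_add_eq_zero_right this.symm).symm

theorem pow_left (h : IsSymbol c) (u v : Eˣ) (k : ℕ) : c (u ^ k) v = k • c u v := by
  induction k with
  | zero => rw [pow_zero, h.one_left, zero_smul]
  | succ k ih => rw [pow_succ, h.mul_left, ih, succ_nsmul]

theorem neg_self (h : IsSymbol c) (u : Eˣ) : c u (-u) = 0 := by
  rcases eq_or_ne u 1 with rfl | h1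
  · exact h.one_left _
  have h1' : (u : E) ≠ 1 := fun h2 => h1 (Units.ext h2)
  have h2 : (1 : E) - u ≠ 0 := sub_ne_zero.2 (Ne.symm h1')
  have h3 : (1 : E) - (u : E)⁻¹ ≠ 0 := by
    intro h3
    apply h1'
    rw [sub_eq_zero] at h3
    exact (inv_eq_one.1 h3.symm)
  have h4 : c u (Units.mk0 _ h2) = 0 := h.steinberg _ _ (by simp)
  have h5 : c u⁻¹ (Units.mk0 _ h3) = 0 := h.steinberg _ _ (by simp)
  rw [h.inv_left, neg_eq_zero] at h5
  have h7 : -u = (Units.mk0 _ h2) * (Units.mk0 _ h3)⁻¹ := by
    ext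
    have hu : (u : E) ≠ 0 := u.ne_zero
    rw [Units.val_mul, Units.val_inv_eq_inv_val, Units.val_mk0, Units.val_mk0, Units.val_neg,
      ← div_eq_mul_inv, eq_div_iff h3]
    field_simp
    ring
  rw [h7, h.mul_right, h.inv_right, h4, h5, neg_zero, add_zero]

theorem anti (h : IsSymbol c) (u v : Eˣ) : c u v = - c v u := by
  have h1 := h.neg_self (u * v)
  have h2 : -(u * v) = (-u) * v := by rw [neg_mul]
  have h3 : -(u * v) = u * (-v) := by rw [mul_neg]
  rw [h.mul_left] at h1
  nth_rewrite 1 [h2] at h1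
  rw [h3, h.mul_right, h.mul_right, h.neg_self u, h.neg_self v, zero_add, add_zero] at h1
  exact eq_neg_of_add_eq_zero_left h1

/-- The family of relations `n • c u v = 0`. -/
theorem rel {F : Type*} [Field F] [Algebra F E] (h : IsSymbol c)
    (hF : ∀ (f : Fˣ) (v : Eˣ), c (Units.map (algebraMap F E).toMonoidHom f) v = 0) :
    Rel F E (fun n u v => ∀ (hu : u ≠ 0) (hv : v ≠ 0),
      n • c (Units.mk0 u hu) (Units.mk0 v hv) = 0) := by
  refine ⟨?_, ?_, ?_, ?_, ?_, ?_, ?_⟩
  · intro n u v _ _ h1 hv hu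
    rw [h.anti, smul_neg, h1 hu hv, neg_zero]
  · intro n u v w hu hv hw h1 h2 _ _
    have h3 : Units.mk0 (u * v) (mul_ne_zero hu hv) = Units.mk0 u hu * Units.mk0 v hv := by
      ext; simp
    rw [h3, h.mul_left, smul_add, h1 hu hw, h2 hv hw, add_zero]
  · intro n u w hu hw h1 _ _
    have h3 : Units.mk0 u⁻¹ (inv_ne_zero hu) = (Units.mk0 u hu)⁻¹ := by
      ext; simp
    rw [h3, h.inv_left, smul_neg, h1 hu hw, neg_zero]
  · intro n m u v h1 hu hv
    rw [mul_smul, h1 hu hv, smul_zero]
  · intro n k u v hu hv h1 _ _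
    have h2 := h1 (pow_ne_zero k hu) hv
    have h3 : Units.mk0 (u ^ k) (pow_ne_zero k hu) = (Units.mk0 u hu) ^ k := by
      ext; simp
    rw [h3, h.pow_left] at h2
    rw [mul_comm, mul_smul, h2]
  · intro u v _ _ huv hu hv
    rw [one_smul]
    exact h.steinberg _ _ (by simpa using huv)
  · intro f v hf _ hu hv
    rw [one_smul]
    have h3 : Units.mk0 (algebraMap F E f) hu =
        Units.map (algebraMap F E).toMonoidHom (Units.mk0 f hf) := by
      ext; simp
    rw [h3]
    exact hF _ _

end IsSymbol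

/-- The subgroup of the free abelian group on the pairs `(u, v)` generated by the elements
`(u v, w) - (u, w) - (v, w)`, the elements `(u, v w) - (u, v) - (u, w)`, and the `(u, v)` with
`u + v = 1`. -/
def k2Relations (E : Type*) [Field E] : AddSubgroup (FreeAbelianGroup (Eˣ × Eˣ)) :=
  AddSubgroup.closure
    ({x | ∃ u v w : Eˣ, x = FreeAbelianGroup.of (u * v, w) -
        (FreeAbelianGroup.of (u, w) + FreeAbelianGroup.of (v, w))} ∪
      {x | ∃ u v w : Eˣ, x = FreeAbelianGroup.of (u, v * w) -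
        (FreeAbelianGroup.of (u, v) + FreeAbelianGroup.of (u, w))} ∪
      {x | ∃ u v : Eˣ, (u : E) + (v : E) = 1 ∧ x = FreeAbelianGroup.of (u, v)})

/-- Milnor's group `K_2(E)`: the abelian group generated by the symbols `{u, v}`, `u, v ∈ Eˣ`,
with the relations of bimultiplicativity and `{u, v} = 0` if `u + v = 1`. -/
def K2 (E : Type*) [Field E] : Type _ := FreeAbelianGroup (Eˣ × Eˣ) ⧸ k2Relations E

noncomputable instance K2.addCommGroup (E : Type*) [Field E] : AddCommGroup (K2 E) :=
  QuotientAddGroup.Quotient.addCommGroup (k2Relations E)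

/-- The projection onto `K_2(E)`. -/
noncomputable def K2.mk (E : Type*) [Field E] : FreeAbelianGroup (Eˣ × Eˣ) →+ K2 E :=
  QuotientAddGroup.mk' (k2Relations E)

/-- The symbol `{u, v}` in `K_2(E)`. -/
noncomputable def symb {E : Type*} [Field E] (u v : Eˣ) : K2 E :=
  K2.mk E (FreeAbelianGroup.of (u, v))

/-- The subgroup of `K_2(E)` generated by the symbols `{f, e}` with `f ∈ Fˣ` and `e ∈ Eˣ`. -/
noncomputable def baseSymbols (F E : Type*) [Field F] [Field E] [Algebra F E] :
    AddSubgroup (K2 E) :=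
  AddSubgroup.closure {x | ∃ (f : Fˣ) (e : Eˣ),
    x = symb (Units.map (algebraMap F E).toMonoidHom f) e}

theorem K2.mk_eq_zero {E : Type*} [Field E] {x : FreeAbelianGroup (Eˣ × Eˣ)}
    (h : x ∈ k2Relations E) : K2.mk E x = 0 :=
  (QuotientAddGroup.eq_zero_iff _).2 h

theorem K2.mk_surjective {E : Type*} [Field E] : Function.Surjective (K2.mk E) :=
  QuotientAddGroup.mk'_surjective _

theorem isSymbol_symb {E : Type*} [Field E] : IsSymbol (symb (E := E)) := by
  refine ⟨?_, ?_, ?_⟩
  · intro u v w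
    unfold symb
    rw [← map_add, ← sub_eq_zero, ← map_sub]
    exact K2.mk_eq_zero (AddSubgroup.subset_closure (Or.inl (Or.inl ⟨u, v, w, rfl⟩)))
  · intro u v w
    unfold symb
    rw [← map_add, ← sub_eq_zero, ← map_sub]
    exact K2.mk_eq_zero (AddSubgroup.subset_closure (Or.inl (Or.inr ⟨u, v, w, rfl⟩)))
  · intro u v huv
    unfold symb
    exact K2.mk_eq_zero (AddSubgroup.subset_closure (Or.inr ⟨u, v, huv, rfl⟩))

/-- Every element of `K_2(E)` is a sum of symbols. -/
theorem K2.induction {E : Type*} [Field E] {P : K2 E → Prop} (h0 : P 0)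
    (hs : ∀ u v, P (symb u v)) (hn : ∀ x, P x → P (-x)) (ha : ∀ x y, P x → P y → P (x + y))
    (x : K2 E) : P x := by
  obtain ⟨t, rfl⟩ := K2.mk_surjective x
  induction t using FreeAbelianGroup.induction_on with
  | zero => rw [map_zero]; exact h0
  | of p => exact hs p.1 p.2
  | neg p hp => rw [map_neg]; exact hn _ hp
  | add a b ha' hb' => rw [map_add]; exact ha _ _ ha' hb'

universe u w

/-- If every symbol on `E` which is trivial on `F` is killed by `n`, then `n K_2(E)` is contained
in the subgroup generated by the symbols `{f, e}`. -/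
theorem smul_mem_baseSymbols {F : Type w} {E : Type u} [Field F] [Field E] [Algebra F E] (n : ℕ)
    (h : ∀ (G : Type u) [AddCommGroup G] (c : Eˣ → Eˣ → G), IsSymbol c →
      (∀ (f : Fˣ) (v : Eˣ), c (Units.map (algebraMap F E).toMonoidHom f) v = 0) →
      ∀ u v, n • c u v = 0) (x : K2 E) : n • x ∈ baseSymbols F E := by
  have h1 : ∀ u v : Eˣ, n • symb u v ∈ baseSymbols F E := by
    intro u v
    have h2 := h (K2 E ⧸ baseSymbols F E)
      (fun u v => (QuotientAddGroup.mk (symb u v) : K2 E ⧸ baseSymbols F E)) ⟨?_, ?_, ?_⟩ ?_ u v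
    · exact (QuotientAddGroup.eq_zero_iff _).1 h2
    · intro u v w
      rw [isSymbol_symb.mul_left]; rfl
    · intro u v w
      rw [isSymbol_symb.mul_right]; rfl
    · intro u v huv
      rw [isSymbol_symb.steinberg u v huv]; rfl
    · intro f v
      exact (QuotientAddGroup.eq_zero_iff _).2 (AddSubgroup.subset_closure ⟨f, v, rfl⟩)
  induction x using K2.induction with
  | h0 => rw [smul_zero]; exact zero_mem _
  | hs u v => exact h1 u v
  | hn x hx => rw [smul_neg]; exact neg_mem hx
  | ha x y hx hy => rw [smul_add]; exact add_mem hx hy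

variable {F K E : Type*} [Field F] [Field K] [Field E] [Algebra F K] [Algebra K E] [Algebra F E]

section

variable [IsScalarTower F K E]

theorem symbol_quadratic (hK : finrank F K = 2) (hE : finrank K E = 2) {G : Type*}
    [AddCommGroup G] {c : Eˣ → Eˣ → G} (h : IsSymbol c)
    (hF : ∀ (f : Fˣ) (v : Eˣ), c (Units.map (algebraMap F E).toMonoidHom f) v = 0) (u v : Eˣ) :
    2 • c u v = 0 := by
  have h1 := (h.rel hF).of_quadratic_tower hK hE u.ne_zero v.ne_zero u.ne_zero v.ne_zero
  simpa using h1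

theorem symbol_cubic (hK : finrank F K = 2) (hE : finrank K E = 3) {G : Type*}
    [AddCommGroup G] {c : Eˣ → Eˣ → G} (h : IsSymbol c)
    (hF : ∀ (f : Fˣ) (v : Eˣ), c (Units.map (algebraMap F E).toMonoidHom f) v = 0) (u v : Eˣ) :
    6 • c u v = 0 := by
  have h1 := (h.rel hF).of_cubic_tower hK hE u.ne_zero v.ne_zero u.ne_zero v.ne_zero
  simpa using h1

end

end Pool.Agent.LibK2Tower
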