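import Pool.Agent.LibK2Tower.Sym

/-!
The norm residue relation: `v` is a norm from `E(u ^ (1 / l))`.
-/

set_option autoImplicit false

open Polynomial Module IntermediateField

namespace Pool.Agent.LibK2Tower

open Pool.Agent.LibDivBr

/-- `u` is an `l`-th power or `v` is a norm from `E[X] / (X ^ l - u)`. -/
def NR (l : ℕ) {E : Type*} [Field E] (u v : E) : Prop :=
  (∃ s : E, s ^ l = u) ∨ ∃ w : AdjoinRoot (X ^ l - C u : E[X]), Algebra.norm E w = v

section

variable {E : Type*} [Field E] {l : ℕ} {ζ : E}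

theorem irr_of_not_pow (hl : l.Prime) {u : E} (hu : ¬ ∃ s : E, s ^ l = u) :
    Irreducible (X ^ l - C u : E[X]) :=
  (X_pow_sub_C_irreducible_iff_of_prime hl).2 (fun b hb => hu ⟨b, hb⟩)

theorem galois_facts {L : Type*} [Field L] [Algebra E L] (hl : l.Prime)
    (hζ : IsPrimitiveRoot ζ l) {u : E} (H : Irreducible (X ^ l - C u : E[X]))
    (hs : IsSplittingField E L (X ^ l - C u)) {y : L} (hy : y ^ l = algebraMap E L u) :
    IsGalois E L ∧ finrank E L = l ∧ ∃ σ : L ≃ₐ[E] L, σ y = ζ • y ∧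
      ∀ τ : L ≃ₐ[E] L, τ ∈ Subgroup.zpowers σ := by
  have hne : NeZero l := ⟨hl.ne_zero⟩
  have hpr : (primitiveRoots l E).Nonempty := ⟨ζ, (mem_primitiveRoots hl.pos).2 hζ⟩
  have hG : IsGalois E L := isGalois_of_isSplittingField_X_pow_sub_C hpr H L
  have hfr : finrank E L = l := finrank_of_isSplittingField_X_pow_sub_C hpr H L
  have hfin : FiniteDimensional E L := FiniteDimensional.of_finrank_pos (by rw [hfr]; exact hl.pos)
  refine ⟨hG, hfr, (autEquivZmod H L hζ).symm (Multiplicative.ofAdd ((1 : ℕ) : ZMod l)), ?_, ?_⟩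
  · rw [autEquivZmod_symm_apply_natCast H L hy hζ 1, pow_one]
  · intro τ
    have : Fact l.Prime := ⟨hl⟩
    have hcard : Nat.card Gal(L/E) = l := by rw [IsGalois.card_aut_eq_finrank, hfr]
    apply mem_zpowers_of_prime_card hcard
    intro h1
    have h2 : (Multiplicative.ofAdd ((1 : ℕ) : ZMod l)) = 1 := by
      have h3 := congrArg (autEquivZmod H L hζ) h1
      rwa [MulEquiv.apply_symm_apply, map_one] at h3
    have h4 : ((1 : ℕ) : ZMod l) = 0 := by
      exact congrArg Multiplicative.toAdd h2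
    have hne1 : Fact (1 < l) := ⟨hl.one_lt⟩
    simp at h4

theorem adjoinRoot_facts (hl : l.Prime) (hζ : IsPrimitiveRoot ζ l) {u : E}
    (H : Irreducible (X ^ l - C u : E[X])) :
    haveI := Fact.mk H
    IsSplittingField E (AdjoinRoot (X ^ l - C u : E[X])) (X ^ l - C u) := by
  have hpr : (primitiveRoots l E).Nonempty := ⟨ζ, (mem_primitiveRoots hl.pos).2 hζ⟩
  exact isSplittingField_AdjoinRoot_X_pow_sub_C hpr H

theorem NR.mul {u v w : E} (h1 : NR l u v) (h2 : NR l u w) : NR l u (v * w) := by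
  rcases h1 with h1 | ⟨a, ha⟩
  · exact Or.inl h1
  rcases h2 with h2 | ⟨b, hb⟩
  · exact Or.inl h2
  · exact Or.inr ⟨a * b, by rw [map_mul, ha, hb]⟩

theorem NR.inv (hl : l.Prime) {u v : E} (h1 : NR l u v) : NR l u v⁻¹ := by
  by_cases hu : ∃ s : E, s ^ l = u
  · exact Or.inl hu
  rcases h1 with h1 | ⟨a, ha⟩
  · exact Or.inl h1
  have := Fact.mk (irr_of_not_pow hl hu)
  obtain ⟨b, hb⟩ := IsNorm.inv (K := E) (L := AdjoinRoot (X ^ l - C u : E[X])) ⟨a, ha⟩
  exact Or.inr ⟨b, hb⟩

theorem NR.pow_right (hl : l.Prime) (hζ : IsPrimitiveRoot ζ l) (u b : E) : NR l u (b ^ l) := by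
  by_cases hu : ∃ s : E, s ^ l = u
  · exact Or.inl hu
  have H := irr_of_not_pow hl hu
  have := Fact.mk H
  have hs := adjoinRoot_facts hl hζ H
  have hpr : (primitiveRoots l E).Nonempty := ⟨ζ, (mem_primitiveRoots hl.pos).2 hζ⟩
  have hfr := finrank_of_isSplittingField_X_pow_sub_C hpr H (AdjoinRoot (X ^ l - C u : E[X]))
  exact Or.inr ⟨algebraMap E _ b, by rw [Algebra.norm_algebraMap, hfr]⟩

theorem NR.pow {u v : E} (hl : l.Prime) (hζ : IsPrimitiveRoot ζ l) (h1 : NR l u v) (k : ℕ) :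
    NR l u (v ^ k) := by
  induction k with
  | zero =>
    have := NR.pow_right hl hζ u 1
    simpa using this
  | succ k ih => rw [pow_succ]; exact ih.mul h1

theorem NR.steinberg (hl : l.Prime) (hζ : IsPrimitiveRoot ζ l) {u v : E} (huv : u + v = 1) :
    NR l u v := by
  by_cases hu : ∃ s : E, s ^ l = u
  · exact Or.inl hu
  have H := irr_of_not_pow hl hu
  have := Fact.mk H
  have hs := adjoinRoot_facts hl hζ H
  have hpr : (primitiveRoots l E).Nonempty := ⟨ζ, (mem_primitiveRoots hl.pos).2 hζ⟩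
  have hfr := finrank_of_isSplittingField_X_pow_sub_C hpr H (AdjoinRoot (X ^ l - C u : E[X]))
  have hy : (AdjoinRoot.root (X ^ l - C u : E[X])) ^ l =
      algebraMap E (AdjoinRoot (X ^ l - C u : E[X])) u := root_X_pow_sub_C_pow l u
  have htop := IntermediateField.adjoin_root_eq_top_of_isSplittingField hpr H hy
  have h1 := norm_sub hl hfr hy htop 1
  refine Or.inr ⟨_, h1.trans ?_⟩
  rw [one_pow]
  linear_combination -huv

theorem sym_aux {L M : Type*} [Field L] [Algebra E L] [Field M] [Algebra E M] (hl : l.Prime)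
    (hζ : IsPrimitiveRoot ζ l) {u v : E} (Hu : Irreducible (X ^ l - C u : E[X]))
    (Hv : Irreducible (X ^ l - C v : E[X])) (hsu : IsSplittingField E L (X ^ l - C u))
    (hsv : IsSplittingField E M (X ^ l - C v)) {y w : L} (hy : y ^ l = algebraMap E L u)
    {z : M} (hz : z ^ l = algebraMap E M v) (hw : Algebra.norm E w = v) :
    ∃ c : M, Algebra.norm E c = u := by
  obtain ⟨hGL, hfL, σ, hσ, hσgen⟩ := galois_facts hl hζ Hu hsu hy
  have hζ0 : ζ ≠ 0 := hζ.ne_zero hl.ne_zero
  obtain ⟨hGM, hfM, τ, hτ, hτgen⟩ := galois_facts hl hζ.inv Hv hsv hz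
  have hfdL : FiniteDimensional E L := FiniteDimensional.of_finrank_pos (by rw [hfL]; exact hl.pos)
  have hfdM : FiniteDimensional E M := FiniteDimensional.of_finrank_pos (by rw [hfM]; exact hl.pos)
  have hσl : σ ^ l = 1 := by
    have hord : orderOf σ = l := by
      rw [orderOf_eq_card_of_forall_mem_zpowers hσgen, IsGalois.card_aut_eq_finrank, hfL]
    rw [← hord]; exact pow_orderOf_eq_one σ
  have hT : (tw w σ) ^ l = algebraMap E (Module.End E L) v := by
    ext x
    rw [tw_pow_apply, prod_eq_norm hfL hσgen, hw, hσl, Module.algebraMap_end_apply,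
      Algebra.smul_def]
    rfl
  have hY : (LinearMap.mulLeft E y) ^ l = algebraMap E (Module.End E L) u := by
    ext x
    rw [LinearMap.pow_mulLeft, hy, Module.algebraMap_end_apply, Algebra.smul_def]
    rfl
  have hTY : (LinearMap.mulLeft E y) * (tw w σ) = ζ⁻¹ • ((tw w σ) * (LinearMap.mulLeft E y)) := by
    ext x
    rw [LinearMap.smul_apply, Module.End.mul_apply, Module.End.mul_apply, tw_apply, tw_apply,
      LinearMap.mulLeft_apply, LinearMap.mulLeft_apply, map_mul, hσ]
    rw [Algebra.smul_def, Algebra.smul_def, map_inv₀]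
    have h1 : algebraMap E L ζ ≠ 0 := by
      intro h0; apply hζ0; exact (map_eq_zero_iff _ (algebraMap E L).injective).1 h0
    have h2 : (algebraMap E L ζ)⁻¹ * (w * (algebraMap E L ζ * y * σ x)) =
        ((algebraMap E L ζ)⁻¹ * algebraMap E L ζ) * (y * (w * σ x)) := by ring
    rw [h2, inv_mul_cancel₀ h1, one_mul]
  obtain ⟨c, q, hc⟩ := exists_poly_of_end hl hfL hT hY hTY Hv
  have h1 : ∏ i ∈ Finset.range l, aeval z (c.comp (C (ζ⁻¹ ^ i) * X)) = algebraMap E M u := by
    have h2 := congrArg (aeval z) hc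
    rw [map_sub, map_mul, map_prod, aeval_C, map_sub, map_pow, aeval_X, aeval_C, hz, sub_self,
      zero_mul, sub_eq_zero] at h2
    exact h2
  have h2 : ∀ k : ℕ, (τ ^ k) (aeval z c) = aeval z (c.comp (C (ζ⁻¹ ^ k) * X)) := by
    intro k
    have h3 : (τ ^ k) z = ζ⁻¹ ^ k • z := by
      induction k with
      | zero => simp
      | succ k ih =>
        rw [pow_succ', AlgEquiv.mul_apply, ih, map_smul, hτ, smul_smul, ← pow_succ]
    have h4 : (τ ^ k) (aeval z c) = aeval ((τ ^ k) z) c :=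
      (Polynomial.aeval_algHom_apply ((τ ^ k : M ≃ₐ[E] M) : M →ₐ[E] M) z c).symm
    rw [h4, h3, aeval_comp, map_mul, aeval_C, aeval_X, Algebra.smul_def]
  have h3 := prod_eq_norm hfM hτgen (aeval z c)
  rw [Finset.prod_congr rfl (fun k _ => h2 k), h1] at h3
  exact ⟨aeval z c, ((algebraMap E M).injective h3).symm⟩

/-- **Symmetry.** -/
theorem NR.symm (hl : l.Prime) (hζ : IsPrimitiveRoot ζ l) {u v : E}
    (h : NR l u v) : NR l v u := by
  by_cases hv : ∃ s : E, s ^ l = v
  · exact Or.inl hv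
  by_cases hu : ∃ s : E, s ^ l = u
  · obtain ⟨s, rfl⟩ := hu
    exact NR.pow_right hl hζ v s
  rcases h with h | ⟨w, hw⟩
  · exact absurd h hu
  have Hu := irr_of_not_pow hl hu
  have Hv := irr_of_not_pow hl hv
  have := Fact.mk Hu
  have := Fact.mk Hv
  exact Or.inr (sym_aux hl hζ Hu Hv (adjoinRoot_facts hl hζ Hu) (adjoinRoot_facts hl hζ Hv)
    (root_X_pow_sub_C_pow l u) (root_X_pow_sub_C_pow l v) hw)

/-- The family of relations for the main theorem. -/
theorem NR.rel {F : Type*} [Field F] [Algebra F E] (hl : l.Prime) (hζ : IsPrimitiveRoot ζ l)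
    (hF : ∀ a : F, ∃ b : F, b ^ l = a) : Rel F E (fun n u v => n.Coprime l → NR l u v) := by
  refine ⟨?_, ?_, ?_, ?_, ?_, ?_, ?_⟩
  · intro n u v _ _ h1 hn
    exact (h1 hn).symm hl hζ
  · intro n u v w _ _ _ h1 h2 hn
    exact (((h1 hn).symm hl hζ).mul ((h2 hn).symm hl hζ)).symm hl hζ
  · intro n u w _ _ h1 hn
    exact (((h1 hn).symm hl hζ).inv hl).symm hl hζ
  · intro n m u v h1 hn
    exact h1 (Nat.Coprime.coprime_mul_left hn)
  · intro n k u v hu hv h1 hkn
    have hk : k.Coprime l := Nat.Coprime.coprime_mul_right hkn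
    have hn : n.Coprime l := Nat.Coprime.coprime_mul_left hkn
    have h2 := (h1 hn).symm hl hζ
    obtain ⟨a, -, ha⟩ := Nat.exists_mul_mod_eq_one_of_coprime hk hl.one_lt
    have h3 : k * a = 1 + l * (k * a / l) := by
      have := Nat.mod_add_div (k * a) l
      rw [ha] at this
      exact this.symm
    set q := k * a / l
    have h4 : u = (u ^ k) ^ a * ((u ^ q) ^ l)⁻¹ := by
      rw [← pow_mul, h3, pow_add, pow_one, ← pow_mul, mul_comm q l, mul_assoc,
        mul_inv_cancel₀ (pow_ne_zero _ hu), mul_one]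
    have h5 : NR l v u := by
      rw [h4]
      exact (h2.pow hl hζ a).mul ((NR.pow_right hl hζ v (u ^ q)).inv hl)
    exact h5.symm hl hζ
  · intro u v _ _ huv _
    exact NR.steinberg hl hζ huv
  · intro f v _ _ _
    obtain ⟨b, rfl⟩ := hF f
    exact Or.inl ⟨algebraMap F E b, by rw [map_pow]⟩

end

/-- If the norm residue relation always holds, all cyclic algebras of degree `l` are split. -/
theorem cyclicTrivial_of_NR {E : Type} [Field E] {l : ℕ} (hl : l.Prime)
    (hζ : ∃ ζ : E, IsPrimitiveRoot ζ l) (h : ∀ u v : E, u ≠ 0 → v ≠ 0 → NR l u v) :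
    CyclicTrivial E l := by
  obtain ⟨ζ, hζ⟩ := hζ
  intro L _ _ _ hL
  have hfin : FiniteDimensional E L := FiniteDimensional.of_finrank_pos (by rw [hL]; exact hl.pos)
  have hsurj : ∀ v : E, ∃ w : L, Algebra.norm E w = v := by
    intro v
    rcases eq_or_ne v 0 with rfl | hv
    · exact ⟨0, Algebra.norm_zero⟩
    have hcard : Nat.card Gal(L/E) = l := by rw [IsGalois.card_aut_eq_finrank, hL]
    have hcyc : IsCyclic Gal(L/E) := by
      have : Fact l.Prime := ⟨hl⟩
      exact isCyclic_of_prime_card hcard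
    have hK : (primitiveRoots (finrank E L) E).Nonempty :=
      ⟨ζ, (mem_primitiveRoots (by rw [hL]; exact hl.pos)).2 (by rw [hL]; exact hζ)⟩
    obtain ⟨y, ⟨u, hu⟩, hg⟩ := exists_root_adjoin_eq_top_of_isCyclic E L hK
    have hirr := irreducible_X_pow_sub_C_of_root_adjoin_eq_top hu.symm hg
    have hsp := isSplittingField_X_pow_sub_C_of_root_adjoin_eq_top hK hu.symm hg
    rw [hL] at hu hirr hsp hK
    have hupow : ¬ ∃ b : E, b ^ l = u := by
      rintro ⟨b, hb⟩
      exact (X_pow_sub_C_irreducible_iff_of_prime hl).1 hirr b hb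
    have hu0 : u ≠ 0 := by
      rintro rfl
      exact hupow ⟨0, zero_pow hl.ne_zero⟩
    rcases h u v hu0 hv with h1 | ⟨w, hw⟩
    · exact absurd h1 hupow
    · let e := adjoinRootXPowSubCEquiv (L := L) hK hirr hu.symm
      refine ⟨e w, ?_⟩
      rw [← hw]
      exact Algebra.norm_eq_of_algEquiv e w
  refine ⟨hsurj, ?_⟩
  intro σ hσ a ha A _ _ hA
  exact cyclic_split hL hσ ha (hsurj a) hA

end Pool.Agent.LibK2Tower
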