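import Pool.Agent.LibK2Tower.Symbol
import Pool.Agent.LibK2Tower.NormRel

/-!
Galois extensions of degree 1, 2, 3, 4, 6, and cyclotomic extensions.
-/

set_option autoImplicit false

open Module

namespace Pool.Agent.LibK2Tower

open Pool.Agent.LibDivBr

section

variable {F E : Type*} [Field F] [Field E] [Algebra F E] {S : ℕ → E → E → Prop}

/-- A Galois extension of degree `p q`, `q` prime, has a subfield of degree `p`. -/
theorem exists_intermediate [IsGalois F E] {p q : ℕ} (hq : q.Prime) (hp : 0 < p)
    (h : finrank F E = p * q) :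
    ∃ K : IntermediateField F E, finrank F K = p ∧ finrank K E = q := by
  have hpos : 0 < p * q := Nat.mul_pos hp hq.pos
  have hfin : FiniteDimensional F E := FiniteDimensional.of_finrank_pos (by omega)
  have hcard : Nat.card Gal(E/F) = p * q := by rw [IsGalois.card_aut_eq_finrank, h]
  have : Fact q.Prime := ⟨hq⟩
  obtain ⟨H, hH⟩ := Sylow.exists_subgroup_card_pow_prime (G := Gal(E/F)) q (n := 1)
    (by rw [hcard, pow_one]; exact dvd_mul_left q p)
  rw [pow_one] at hH
  refine ⟨IntermediateField.fixedField H, ?_, ?_⟩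
  · have h1 := finrank_mul_finrank F (IntermediateField.fixedField H) E
    rw [IntermediateField.finrank_fixedField_eq_card, hH, h] at h1
    exact Nat.eq_of_mul_eq_mul_right hq.pos h1
  · rw [IntermediateField.finrank_fixedField_eq_card, hH]

/-- Galois extensions of degree 1, 2, 3, 4, 6. -/
theorem Rel.of_galois (h : Rel F E S) [IsGalois F E]
    (hd : finrank F E ∈ ({1, 2, 3, 4, 6} : Finset ℕ)) {u v : E} (hu : u ≠ 0) (hv : v ≠ 0) :
    S 6 u v := by
  have hd' : (finrank F E = 1 ∨ finrank F E = 2 ∨ finrank F E = 3) ∨ finrank F E = 4 ∨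
      finrank F E = 6 := by
    simp only [Finset.mem_insert, Finset.mem_singleton] at hd
    omega
  rcases hd' with hd' | hd' | hd'
  · have hfin : FiniteDimensional F E := FiniteDimensional.of_finrank_pos (by omega)
    exact h.up 6 (h.all_of_le_three (by omega) hu hv)
  · obtain ⟨K, hK, hE⟩ := exists_intermediate (F := F) (E := E) (p := 2) (q := 2)
      Nat.prime_two (by norm_num) (by omega)
    have h1 := h.of_quadratic_tower hK hE hu hv
    exact h.mono 2 3 _ _ h1
  · obtain ⟨K, hK, hE⟩ := exists_intermediate (F := F) (E := E) (p := 2) (q := 3)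
      Nat.prime_three (by norm_num) (by omega)
    exact h.of_cubic_tower hK hE hu hv

/-- The degree of `F(ζ_l) / F` divides `l - 1`. -/
theorem finrank_dvd (l : ℕ) (hl : l.Prime) (hc : IsCyclotomicExtension {l} F E) :
    finrank F E ∣ l - 1 := by
  have hne : NeZero l := ⟨hl.ne_zero⟩
  have hG : IsGalois F E := IsCyclotomicExtension.isGalois {l} F E
  have hfin : FiniteDimensional F E := IsCyclotomicExtension.finiteDimensional {l} F E
  have hfl : Fact l.Prime := ⟨hl⟩
  have h1 := Subgroup.card_dvd_of_injective _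
    ((IsCyclotomicExtension.zeta_spec l F E).autToPow_injective F)
  rw [IsGalois.card_aut_eq_finrank, Nat.card_eq_fintype_card, ZMod.card_units] at h1
  exact h1

theorem cyclo_degree {l : ℕ} (hl : l.Prime) (hc : IsCyclotomicExtension {l} F E)
    (h : l = 7 ∨ finrank F E ∈ ({1, 2, 3, 4, 6} : Finset ℕ)) :
    finrank F E ∈ ({1, 2, 3, 4, 6} : Finset ℕ) := by
  rcases h with rfl | h
  · have h1 : finrank F E ∣ 6 := finrank_dvd 7 hl hc
    have h2 := Nat.le_of_dvd (by norm_num) h1
    have h3 : 0 < finrank F E := Nat.pos_of_dvd_of_pos h1 (by norm_num)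
    generalize finrank F E = d at *
    interval_cases d <;> first | decide | (exfalso; revert h1; decide)
  · exact h

end

universe u

/-- The symbols `{f, e}` generate `K_2(E)` up to 6-torsion. -/
theorem K2_galois {F E : Type u} [Field F] [Field E] [Algebra F E] [IsGalois F E]
    (hd : finrank F E ∈ ({1, 2, 3, 4, 6} : Finset ℕ)) (x : K2 E) : 6 • x ∈ baseSymbols F E := by
  apply smul_mem_baseSymbols
  intro G _ c hc hF u v
  have h1 := (hc.rel hF).of_galois hd u.ne_zero v.ne_zero u.ne_zero v.ne_zero
  simpa using h1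

theorem K2_quadratic {F K E : Type u} [Field F] [Field K] [Field E] [Algebra F K] [Algebra K E]
    [Algebra F E] [IsScalarTower F K E] (hK : finrank F K = 2) (hE : finrank K E = 2)
    (x : K2 E) : 2 • x ∈ baseSymbols F E := by
  apply smul_mem_baseSymbols
  intro G _ c hc hF u v
  exact symbol_quadratic hK hE hc hF u v

theorem K2_cubic {F K E : Type u} [Field F] [Field K] [Field E] [Algebra F K] [Algebra K E]
    [Algebra F E] [IsScalarTower F K E] (hK : finrank F K = 2) (hE : finrank K E = 3)
    (x : K2 E) : 6 • x ∈ baseSymbols F E := by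
  apply smul_mem_baseSymbols
  intro G _ c hc hF u v
  exact symbol_cubic hK hE hc hF u v

/-- The trinomial lemma in `K_2(E)`. -/
theorem K2_trinomial {F K E : Type u} [Field F] [Field K] [Field E] [Algebra F K] [Algebra K E]
    [Algebra F E] [IsScalarTower F K E] (hK : finrank F K = 2) {m k : ℕ} (hkm : k < m)
    (s : K) (t a : Kˣ) (z : Eˣ)
    (hz : (z : E) ^ m + algebraMap K E s * (z : E) ^ k = algebraMap K E t) :
    (m * (k * (m - k))) • symb z (Units.map (algebraMap K E).toMonoidHom a) ∈
      baseSymbols F E := by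
  have h : IsSymbol (fun u v : Eˣ =>
      (QuotientAddGroup.mk (symb u v) : K2 E ⧸ baseSymbols F E)) := by
    refine ⟨?_, ?_, ?_⟩
    · intro u v w
      simp only [isSymbol_symb.mul_left]; rfl
    · intro u v w
      simp only [isSymbol_symb.mul_right]; rfl
    · intro u v huv
      simp only [isSymbol_symb.steinberg u v huv]; rfl
  have h2 := (h.rel (F := F) (fun f v =>
    (QuotientAddGroup.eq_zero_iff _).2 (AddSubgroup.subset_closure ⟨f, v, rfl⟩))).trinomial hK
    z.ne_zero hkm s t t.ne_zero hz a.ne_zero z.ne_zero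
    (fun h0 => a.ne_zero ((map_eq_zero_iff _ (algebraMap K E).injective).1 h0))
  have h3 : Units.mk0 (algebraMap K E a) (fun h0 => a.ne_zero ((map_eq_zero_iff _
      (algebraMap K E).injective).1 h0)) = Units.map (algebraMap K E).toMonoidHom a := by
    ext; simp
  rw [h3, Units.mk0_val] at h2
  exact (QuotientAddGroup.eq_zero_iff _).1 h2

/-- Cyclic algebras of degree `l` split. -/
theorem cyclicTrivial_galois {F E : Type} [Field F] [Field E] [Algebra F E] [IsGalois F E]
    (hd : finrank F E ∈ ({1, 2, 3, 4, 6} : Finset ℕ)) {l : ℕ} (hl : l.Prime) (hl5 : 5 ≤ l)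
    (hF : ∀ a : F, ∃ b : F, b ^ l = a) (hζ : ∃ ζ : E, IsPrimitiveRoot ζ l) :
    CyclicTrivial E l := by
  refine cyclicTrivial_of_NR hl hζ ?_
  obtain ⟨ζ, hζ⟩ := hζ
  intro u v hu hv
  refine (NR.rel hl hζ hF).of_galois hd hu hv ?_
  refine Nat.Coprime.symm ((Nat.Prime.coprime_iff_not_dvd hl).2 ?_)
  intro h6
  have := Nat.le_of_dvd (by norm_num) h6
  interval_cases l
  · omega
  · exact absurd hl (by decide)

end Pool.Agent.LibK2Tower
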