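import Pool.Agent.LibK2Tower.Cyclo

/-!
Galois extensions of degree five in characteristic five.
-/

set_option autoImplicit false

open Module Polynomial

namespace Pool.Agent.LibK2Tower

section

variable {F E : Type*} [Field F] [Field E] [Algebra F E] {S : ℕ → E → E → Prop}

theorem algebraMap_ne_zero' {a : F} (ha : a ≠ 0) : algebraMap F E a ≠ 0 := fun h =>
  ha ((map_eq_zero_iff _ (algebraMap F E).injective).1 h)

/-- Two linear polynomials in `t` over the base field. -/
theorem Rel.linear_linear (h : Rel F E S) {t : E} {a b c d : F}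
    (h1 : algebraMap F E a * t + algebraMap F E b ≠ 0)
    (h2 : algebraMap F E c * t + algebraMap F E d ≠ 0) :
    S 1 (algebraMap F E a * t + algebraMap F E b) (algebraMap F E c * t + algebraMap F E d) := by
  rcases eq_or_ne a 0 with rfl | ha
  · rw [map_zero, zero_mul, zero_add] at h1 ⊢
    exact h.base1 1 b h1 h2
  have haE : algebraMap F E a ≠ 0 := algebraMap_ne_zero' ha
  have h3 : algebraMap F E c * t + algebraMap F E d =
      algebraMap F E (c / a) * (algebraMap F E a * t + algebraMap F E b) +
        algebraMap F E (d - c / a * b) := by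
    rw [map_sub, map_mul, map_div₀]
    field_simp
    ring
  rw [h3] at h2 ⊢
  exact h.linear2 h1 _ _ h2

/-- The two-term additive trick: if `U₁, U₂` are both of the form `t (x t ^ 4 + y)`. -/
theorem Rel.two_term (h : Rel F E S) {t : E} (ht : t ≠ 0) {a b c d : F}
    (h1 : algebraMap F E a * t ^ 4 + algebraMap F E b ≠ 0)
    (h2 : algebraMap F E c * t ^ 4 + algebraMap F E d ≠ 0) :
    S 4 (t * (algebraMap F E a * t ^ 4 + algebraMap F E b))
      (t * (algebraMap F E c * t ^ 4 + algebraMap F E d)) := by
  have h3 : S 4 t t := h.up 4 (h.self ht)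
  have h4 : S 4 t (algebraMap F E c * t ^ 4 + algebraMap F E d) := h.binomial ht 4 d c h2
  have h5 : S 4 t (algebraMap F E a * t ^ 4 + algebraMap F E b) := h.binomial ht 4 b a h1
  have h6 : S 4 (algebraMap F E a * t ^ 4 + algebraMap F E b)
      (algebraMap F E c * t ^ 4 + algebraMap F E d) := h.up 4 (h.linear_linear h1 h2)
  have h7 := h.mul' ht h2 ht h3 h4
  have h8 := h.mul' ht h2 h1 (h.symm _ _ _ ht h1 h5) h6
  exact h.mul _ _ _ _ ht h1 (mul_ne_zero ht h2) h7 h8

/-- If `V₁ ^ 5, V₁, V₂ ^ 5, V₂` are linearly dependent over the base field (characteristic 5). -/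
theorem Rel.of_dependent [CharP F 5] (h : Rel F E S) (hE : finrank F E = 5) {V W : E}
    (hV : V ≠ 0) (hW : W ≠ 0) {a b c d : F}
    (hrel : algebraMap F E a * V ^ 5 + algebraMap F E b * V + algebraMap F E c * W ^ 5 +
      algebraMap F E d * W = 0) (hne : a ≠ 0 ∨ b ≠ 0 ∨ c ≠ 0 ∨ d ≠ 0) : S 100 V W := by
  have hfin : FiniteDimensional F E := FiniteDimensional.of_finrank_pos (by omega)
  have hchar : CharP E 5 := charP_of_injective_algebraMap (algebraMap F E).injective 5
  have hfact : Fact (Nat.Prime 5) := ⟨by norm_num⟩
  have hlin : ∀ x y : E, (x + y) ^ 5 = x ^ 5 + y ^ 5 := fun x y => add_pow_char x y 5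
  set A := algebraMap F E a with hA
  set B := algebraMap F E b with hB
  set C := algebraMap F E c with hC
  set D := algebraMap F E d with hD
  set U := V ^ 5 with hU
  set Y := W ^ 5 with hY
  have hU0 : U ≠ 0 := pow_ne_zero 5 hV
  have hY0 : Y ≠ 0 := pow_ne_zero 5 hW
  suffices hs : S 4 U Y by
    have h1 := h.pow 4 5 V Y hV hY0 hs
    have h2 := h.pow _ 5 W V hW hV (h.symm _ _ _ hV hY0 h1)
    exact h.symm _ _ _ hW hV h2
  have hrel5 : A ^ 5 * U ^ 5 + B ^ 5 * U + C ^ 5 * Y ^ 5 + D ^ 5 * Y = 0 := by
    have h1 : (A * V ^ 5 + B * V + C * W ^ 5 + D * W) ^ 5 = 0 := by rw [hrel]; ring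
    rw [hlin, hlin, hlin, mul_pow, mul_pow, mul_pow, mul_pow] at h1
    exact h1
  set t := A * U + C * Y with ht
  have ht5 : t ^ 5 = -(B ^ 5 * U) - D ^ 5 * Y := by
    rw [ht, hlin, mul_pow, mul_pow]
    linear_combination hrel5
  by_cases hdet : c * b ^ 5 - a * d ^ 5 = 0
  · -- degenerate case
    have htF : ∃ f : F, algebraMap F E f = t := by
      by_cases hac : a = 0 ∧ c = 0
      · refine ⟨0, ?_⟩
        rw [ht, hA, hC, hac.1, hac.2]; simp
      · -- `(b ^ 5, d ^ 5) = r (a, c)`
        obtain ⟨r, hr1, hr2⟩ : ∃ r : F, b ^ 5 = r * a ∧ d ^ 5 = r * c := by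
          by_cases ha : a = 0
          · have hc : c ≠ 0 := fun hc => hac ⟨ha, hc⟩
            refine ⟨d ^ 5 / c, ?_, ?_⟩
            · rw [ha] at hdet ⊢
              rw [zero_mul, sub_zero] at hdet
              rcases mul_eq_zero.1 hdet with h1 | h1
              · exact absurd h1 hc
              · rw [h1, mul_zero]
            · field_simp
          · refine ⟨b ^ 5 / a, ?_, ?_⟩
            · field_simp
            · field_simp
              linear_combination -hdet
        have h1 : t * (t ^ 4 + algebraMap F E r) = 0 := by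
          have h2 : B ^ 5 = algebraMap F E r * A := by
            rw [hB, hA, ← map_pow, hr1, map_mul]
          have h3 : D ^ 5 = algebraMap F E r * C := by
            rw [hD, hC, ← map_pow, hr2, map_mul]
          rw [h2, h3] at ht5
          have h4 : t * (t ^ 4 + algebraMap F E r) = t ^ 5 + algebraMap F E r * t := by ring
          rw [h4, ht5]
          nth_rewrite 1 [ht]
          ring
        rcases mul_eq_zero.1 h1 with h2 | h2
        · exact ⟨0, by rw [h2, map_zero]⟩
        · -- `t ^ 4 ∈ F`, hence `t ∈ F`
          have hint : IsIntegral F t := IsIntegral.of_finite F t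
          have h3 : (minpoly F t).natDegree ∣ 5 := by
            rw [← hE]; exact minpoly.degree_dvd hint
          have h4 : (minpoly F t).natDegree ≤ 4 := by
            have h5 : aeval t (X ^ 4 + Polynomial.C r : F[X]) = 0 := by
              rw [map_add, map_pow, aeval_X, aeval_C, h2]
            have h6 := minpoly.min F t (monic_X_pow_add_C r (by norm_num : (4 : ℕ) ≠ 0)) h5
            have h7 := natDegree_le_natDegree h6
            rwa [natDegree_X_pow_add_C] at h7
          have h5 : (minpoly F t).natDegree = 1 := by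
            rcases (Nat.dvd_prime (by norm_num : Nat.Prime 5)).1 h3 with h6 | h6
            · exact h6
            · omega
          have h6 := (minpoly.natDegree_eq_one_iff).1 h5
          exact h6
    obtain ⟨f, hf⟩ := htF
    by_cases ha : a = 0
    · by_cases hc : c = 0
      · -- `b V + d W = 0`
        have h1 : B * V + D * W = 0 := by
          have := hrel
          rw [hA, hC, ha, hc] at this
          simpa using this
        have h2 : B ^ 5 * U + D ^ 5 * Y = 0 := by
          have h3 : (B * V + D * W) ^ 5 = 0 := by rw [h1]; ring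
          rwa [hlin, mul_pow, mul_pow] at h3
        have hb : b ≠ 0 := by
          intro hb
          have hd : d ≠ 0 := by
            rcases hne with h3 | h3 | h3 | h3
            · exact absurd ha h3
            · exact absurd hb h3
            · exact absurd hc h3
            · exact h3
          rw [hB, hb] at h1
          simp only [map_zero, zero_mul, zero_add] at h1
          rcases mul_eq_zero.1 h1 with h3 | h3
          · exact algebraMap_ne_zero' hd h3
          · exact hW h3
        have hBE : B ≠ 0 := algebraMap_ne_zero' hb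
        have h3 : U = algebraMap F E (-(d / b) ^ 5) * Y + algebraMap F E 0 := by
          rw [map_neg, map_pow, map_div₀, map_zero, add_zero]
          rw [← hB, ← hD]
          field_simp
          linear_combination h2
        have h4 := h.linear2 hY0 0 (-(d / b) ^ 5) (by rw [← h3]; exact hU0)
        rw [← h3] at h4
        exact h.up 4 (h.symm _ _ _ hY0 hU0 h4)
      · -- `Y ∈ F`
        have hCE : C ≠ 0 := algebraMap_ne_zero' hc
        have h1 : Y = algebraMap F E (f / c) := by
          rw [map_div₀, hf, ht, hA, ha, map_zero, zero_mul, zero_add]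
          rw [← hC]
          field_simp
        rw [h1] at hY0 ⊢
        exact h.base2 4 _ hY0 hU0
    · have hAE : A ≠ 0 := algebraMap_ne_zero' ha
      have h1 : U = algebraMap F E (-(c / a)) * Y + algebraMap F E (f / a) := by
        rw [map_neg, map_div₀, map_div₀, hf, ← hA, ← hC]
        field_simp
        rw [ht]; ring
      have h2 := h.linear2 hY0 (f / a) (-(c / a)) (by rw [← h1]; exact hU0)
      rw [← h1] at h2
      exact h.up 4 (h.symm _ _ _ hY0 hU0 h2)
  · -- main case
    set δ := c * b ^ 5 - a * d ^ 5 with hδ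
    have hδE : algebraMap F E δ ≠ 0 := algebraMap_ne_zero' hdet
    have hδ' : algebraMap F E δ = C * B ^ 5 - A * D ^ 5 := by
      rw [hδ, map_sub, map_mul, map_mul, map_pow, map_pow]
    have h1 : U = t * (algebraMap F E (-c / δ) * t ^ 4 + algebraMap F E (-d ^ 5 / δ)) := by
      rw [map_div₀, map_div₀, map_neg, map_neg, map_pow, ← hC, ← hD]
      have h2 : t * (-C / algebraMap F E δ * t ^ 4 + -D ^ 5 / algebraMap F E δ) =
          -(C * t ^ 5 + D ^ 5 * t) / algebraMap F E δ := by
        field_simp
        ring
      rw [h2, eq_div_iff hδE, ht5, hδ']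
      nth_rewrite 1 [ht]
      ring
    have h2 : Y = t * (algebraMap F E (a / δ) * t ^ 4 + algebraMap F E (b ^ 5 / δ)) := by
      rw [map_div₀, map_div₀, map_pow, ← hA, ← hB]
      have h3 : t * (A / algebraMap F E δ * t ^ 4 + B ^ 5 / algebraMap F E δ) =
          (A * t ^ 5 + B ^ 5 * t) / algebraMap F E δ := by
        field_simp
      rw [h3, eq_div_iff hδE, ht5, hδ']
      nth_rewrite 1 [ht]
      ring
    have ht0 : t ≠ 0 := by
      intro h0
      rw [h0, zero_mul] at h1
      exact hU0 h1
    have h3 : algebraMap F E (-c / δ) * t ^ 4 + algebraMap F E (-d ^ 5 / δ) ≠ 0 := by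
      intro h0
      rw [h0, mul_zero] at h1
      exact hU0 h1
    have h4 : algebraMap F E (a / δ) * t ^ 4 + algebraMap F E (b ^ 5 / δ) ≠ 0 := by
      intro h0
      rw [h0, mul_zero] at h2
      exact hY0 h2
    rw [h1, h2]
    exact h.two_term ht0 h3 h4

end

end Pool.Agent.LibK2Tower
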