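import Pool.Agent.LibK2Tower.Quintic

/-!
Galois extensions of degree five in characteristic five: the main theorem.
-/

set_option autoImplicit false

open Module Polynomial

namespace Pool.Agent.LibK2Tower

section

variable {F E : Type*} [Field F] [Field E] [Algebra F E] {S : ℕ → E → E → Prop}

/-- quadratic polynomials in `w` -/
def quad (w : E) (v : Fin 3 → F) : E :=
  algebraMap F E (v 0) + algebraMap F E (v 1) * w + algebraMap F E (v 2) * w ^ 2

theorem quad_eq_zero (hE : finrank F E = 5) {w : E} (hw : ∀ f : F, algebraMap F E f ≠ w)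
    {v : Fin 3 → F} (h : quad w v = 0) : v = 0 := by
  have hfin : FiniteDimensional F E := FiniteDimensional.of_finrank_pos (by omega)
  have hint : IsIntegral F w := IsIntegral.of_finite F w
  have h3 : (minpoly F w).natDegree ∣ 5 := by
    rw [← hE]; exact minpoly.degree_dvd hint
  have h5 : (minpoly F w).natDegree = 5 := by
    rcases (Nat.dvd_prime (by norm_num : Nat.Prime 5)).1 h3 with h6 | h6
    · obtain ⟨f, hf⟩ := (minpoly.natDegree_eq_one_iff).1 h6
      exact absurd hf (hw f)
    · exact h6
  set p : F[X] := C (v 0) + C (v 1) * X + C (v 2) * X ^ 2 with hp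
  have hp0 : aeval w p = 0 := by
    rw [hp]
    simp only [map_add, map_mul, aeval_C, aeval_X, map_pow]
    exact h
  have hpz : p = 0 := by
    by_contra hne
    have h6 := minpoly.degree_le_of_ne_zero F w hne hp0
    have h7 := natDegree_le_natDegree h6
    have h8 : p.natDegree ≤ 2 := by
      rw [hp]; compute_degree
    omega
  funext i
  have h9 : ∀ n, p.coeff n = 0 := fun n => by rw [hpz, coeff_zero]
  fin_cases i
  · have := h9 0
    simpa [hp, coeff_X, coeff_C] using this
  · have := h9 1
    simpa [hp, coeff_X, coeff_C, coeff_X_pow] using this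
  · have := h9 2
    simpa [hp, coeff_X, coeff_C, coeff_X_pow] using this

/-- every element is a quotient of two quadratic polynomials in `w` -/
theorem exists_quad_quotient (hE : finrank F E = 5) {w : E}
    (hw : ∀ f : F, algebraMap F E f ≠ w) {z : E} (hz : z ≠ 0) :
    ∃ v v' : Fin 3 → F, quad w v ≠ 0 ∧ quad w v' ≠ 0 ∧ z = quad w v / quad w v' := by
  let φ : ((Fin 3 → F) × (Fin 3 → F)) →ₗ[F] E :=
    { toFun := fun v => quad w v.1 - z * quad w v.2
      map_add' := by
        intro u v
        simp only [quad, Prod.fst_add, Prod.snd_add, Pi.add_apply, map_add]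
        ring
      map_smul' := by
        intro r v
        simp only [quad, Prod.smul_fst, Prod.smul_snd, Pi.smul_apply, smul_eq_mul, map_mul,
          RingHom.id_apply]
        rw [Algebra.smul_def]
        ring }
  have hfin : FiniteDimensional F E := FiniteDimensional.of_finrank_pos (by omega)
  have hker : LinearMap.ker φ ≠ ⊥ := by
    intro hk
    have h1 := LinearMap.finrank_le_finrank_of_injective (LinearMap.ker_eq_bot.1 hk)
    rw [hE, finrank_prod, finrank_fintype_fun_eq_card, Fintype.card_fin] at h1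
    omega
  obtain ⟨⟨v, v'⟩, hv, hne⟩ := Submodule.exists_mem_ne_zero_of_ne_bot hker
  have heq : quad w v = z * quad w v' := by
    have h1 : quad w v - z * quad w v' = 0 := hv
    exact sub_eq_zero.1 h1
  have h2 : quad w v' ≠ 0 := by
    intro h0
    have h3 := quad_eq_zero hE hw h0
    rw [h0, mul_zero] at heq
    have h4 := quad_eq_zero hE hw heq
    apply hne
    rw [h3, h4]; rfl
  refine ⟨v, v', ?_, h2, ?_⟩
  · rw [heq]; exact mul_ne_zero hz h2
  · rw [heq, mul_div_assoc, div_self h2, mul_one]

/-- quadratic polynomials in an Artin-Schreier generator are orthogonal -/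
theorem Rel.quad_quad [CharP F 5] (h : Rel F E S) (hE : finrank F E = 5) {w : E} {c : F}
    (hc : w ^ 5 - w = algebraMap F E c) {v v' : Fin 3 → F} (hv : quad w v ≠ 0)
    (hv' : quad w v' ≠ 0) : S 100 (quad w v) (quad w v') := by
  have hchar : CharP E 5 := charP_of_injective_algebraMap (algebraMap F E).injective 5
  have hfact : Fact (Nat.Prime 5) := ⟨by norm_num⟩
  have hlin : ∀ x y : E, (x + y) ^ 5 = x ^ 5 + y ^ 5 := fun x y => add_pow_char x y 5
  have hw5 : w ^ 5 = w + algebraMap F E c := by linear_combination hc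
  let P : (Fin 3 → F) → (Fin 3 → F) := fun v =>
    ![(v 0) ^ 5 + c * (v 1) ^ 5 + c ^ 2 * (v 2) ^ 5, (v 1) ^ 5 + 2 * c * (v 2) ^ 5, (v 2) ^ 5]
  have hP : ∀ v : Fin 3 → F, quad w v ^ 5 = quad w (P v) := by
    intro v
    simp only [quad, P, Matrix.cons_val_zero, Matrix.cons_val_one, Matrix.cons_val, map_add,
      map_mul, map_pow, map_ofNat]
    rw [hlin, hlin, mul_pow, mul_pow, ← pow_mul, mul_comm 2 5, pow_mul, hw5]
    ring
  have hdep : ¬ LinearIndependent F ![P v, v, P v', v'] := by
    intro hli
    have := hli.fintype_card_le_finrank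
    rw [finrank_fintype_fun_eq_card, Fintype.card_fin, Fintype.card_fin] at this
    omega
  rw [Fintype.not_linearIndependent_iff] at hdep
  obtain ⟨g, hg, i, hi⟩ := hdep
  rw [Fin.sum_univ_four] at hg
  simp only [Matrix.cons_val_zero, Matrix.cons_val_one, Matrix.cons_val] at hg
  have h0 := congrFun hg 0
  have h1 := congrFun hg 1
  have h2 := congrFun hg 2
  simp only [Pi.add_apply, Pi.smul_apply, smul_eq_mul, Pi.zero_apply] at h0 h1 h2
  refine h.of_dependent hE hv hv' (a := g 0) (b := g 1) (c := g 2) (d := g 3) ?_ ?_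
  · rw [hP v, hP v']
    have e0 := congrArg (algebraMap F E) h0
    have e1 := congrArg (algebraMap F E) h1
    have e2 := congrArg (algebraMap F E) h2
    simp only [map_add, map_mul, map_zero] at e0 e1 e2
    simp only [quad]
    linear_combination e0 + w * e1 + w ^ 2 * e2
  · fin_cases i
    · exact Or.inl hi
    · exact Or.inr (Or.inl hi)
    · exact Or.inr (Or.inr (Or.inl hi))
    · exact Or.inr (Or.inr (Or.inr hi))

/-- Artin-Schreier extensions of degree 5 -/
theorem Rel.of_artinSchreier [CharP F 5] (h : Rel F E S) (hE : finrank F E = 5) {w : E} {c : F}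
    (hw : ∀ f : F, algebraMap F E f ≠ w) (hc : w ^ 5 - w = algebraMap F E c) {u v : E}
    (hu : u ≠ 0) (hv : v ≠ 0) : S 100 u v := by
  obtain ⟨a, b, ha, hb, rfl⟩ := exists_quad_quotient hE hw hu
  obtain ⟨a', b', ha', hb', rfl⟩ := exists_quad_quotient hE hw hv
  have h1 := h.div' ha' hb' ha (h.quad_quad hE hc ha ha') (h.quad_quad hE hc ha hb')
  have h2 := h.div' ha' hb' hb (h.quad_quad hE hc hb ha') (h.quad_quad hE hc hb hb')
  exact h.div ha hb (div_ne_zero ha' hb') h1 h2

/-- additive Hilbert 90: a Galois extension of degree 5 in characteristic 5 is generated by a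
root of `X ^ 5 - X - c`. -/
theorem exists_artinSchreier [CharP F 5] [IsGalois F E] (hE : finrank F E = 5) :
    ∃ (w : E) (c : F), (∀ f : F, algebraMap F E f ≠ w) ∧ w ^ 5 - w = algebraMap F E c := by
  have hchar : CharP E 5 := charP_of_injective_algebraMap (algebraMap F E).injective 5
  have hfact : Fact (Nat.Prime 5) := ⟨by norm_num⟩
  have hfin : FiniteDimensional F E := FiniteDimensional.of_finrank_pos (by omega)
  have hcard : Nat.card Gal(E/F) = 5 := by rw [IsGalois.card_aut_eq_finrank, hE]
  have hnt : Nontrivial Gal(E/F) := by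
    have : Finite Gal(E/F) := Nat.finite_of_card_ne_zero (by rw [hcard]; norm_num)
    exact (Finite.one_lt_card_iff_nontrivial).1 (by rw [hcard]; norm_num)
  obtain ⟨σ, hσ⟩ := exists_ne (1 : Gal(E/F))
  have hgen : ∀ τ : Gal(E/F), τ ∈ Subgroup.zpowers σ := fun τ =>
    mem_zpowers_of_prime_card hcard hσ
  have hord : orderOf σ = 5 := by
    rw [orderOf_eq_card_of_forall_mem_zpowers hgen, hcard]
  have hσ5 : σ ^ 5 = 1 := by rw [← hord]; exact pow_orderOf_eq_one σ
  obtain ⟨θ, hθ⟩ := Algebra.trace_surjective F E 1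
  have hsum : ∑ k ∈ Finset.range 5, (σ ^ k) θ = 1 := by
    classical
    have h1 := trace_eq_sum_automorphisms (K := F) (L := E) θ
    rw [hθ, map_one] at h1
    rw [h1]
    rw [← IsCyclic.image_range_orderOf hgen, hord, Finset.sum_image]
    intro j hj k hk hjk
    have hj' : j < 5 := by simpa using hj
    have hk' : k < 5 := by simpa using hk
    exact pow_injOn_Iio_orderOf (by simpa [hord] using hj') (by simpa [hord] using hk') hjk
  simp only [Finset.sum_range_succ, Finset.sum_range_zero, zero_add, pow_zero, pow_one,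
    AlgEquiv.one_apply] at hsum
  have h50 : (5 : E) = 0 := by
    have := CharP.cast_eq_zero E 5
    exact_mod_cast this
  have hs : ∀ k : ℕ, σ ((σ ^ k) θ) = (σ ^ (k + 1)) θ := by
    intro k
    rw [pow_succ', AlgEquiv.mul_apply]
  have hs5 : (σ ^ 5) θ = θ := by rw [hσ5]; rfl
  set w : E := -(σ θ + 2 * (σ ^ 2) θ + 3 * (σ ^ 3) θ + 4 * (σ ^ 4) θ) with hw
  have hσw : σ w = w + 1 := by
    have h1 : σ (σ θ) = (σ ^ 2) θ := by rw [pow_two, AlgEquiv.mul_apply]
    rw [hw, map_neg, map_add, map_add, map_add, map_mul, map_mul, map_mul, hs, hs, hs, h1, hs5]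
    simp only [map_ofNat]
    linear_combination hsum - θ * h50
  have hfix : σ (w ^ 5 - w) = w ^ 5 - w := by
    rw [map_sub, map_pow, hσw, add_pow_char w 1 5]
    ring
  have hall : ∀ f : Gal(E/F), f (w ^ 5 - w) = w ^ 5 - w := by
    have h1 : Subgroup.zpowers σ ≤ MulAction.stabilizer Gal(E/F) (w ^ 5 - w) := by
      rw [Subgroup.zpowers_le, MulAction.mem_stabilizer_iff]
      exact hfix
    intro f
    have h2 := h1 (hgen f)
    rw [MulAction.mem_stabilizer_iff] at h2
    exact h2
  obtain ⟨c, hc⟩ := (IsGalois.mem_range_algebraMap_iff_fixed (F := F) (w ^ 5 - w)).2 hall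
  refine ⟨w, c, ?_, hc.symm⟩
  intro f hf
  have h1 := hσw
  rw [← hf, AlgEquiv.commutes] at h1
  have h2 : (1 : E) = 0 := by linear_combination -h1
  exact one_ne_zero h2

/-- Galois extensions of degree 5 in characteristic 5 -/
theorem Rel.of_quintic [CharP F 5] [IsGalois F E] (h : Rel F E S) (hE : finrank F E = 5)
    {u v : E} (hu : u ≠ 0) (hv : v ≠ 0) : S 100 u v := by
  obtain ⟨w, c, hw, hc⟩ := exists_artinSchreier (F := F) (E := E) hE
  exact h.of_artinSchreier hE hw hc hu hv

end

end Pool.Agent.LibK2Tower
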