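import Mathlib

/-!
Families of relations which behave like `n * c(u, v) = 0` for a Steinberg symbol `c` on `E`,
trivial on `F`, and the trinomial lemma.
-/

set_option autoImplicit false

open Module Polynomial

namespace Pool.Agent.LibK2Tower

/-- A family `S n` of relations on the nonzero elements of `E`, with the formal properties of
`S n u v = (n • c u v = 0)`, where `c` is a Steinberg symbol on `E`, trivial on `F`. -/
structure Rel (F E : Type*) [Field F] [Field E] [Algebra F E] (S : ℕ → E → E → Prop) : Prop where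
  symm : ∀ n u v, u ≠ 0 → v ≠ 0 → S n u v → S n v u
  mul : ∀ n u v w, u ≠ 0 → v ≠ 0 → w ≠ 0 → S n u w → S n v w → S n (u * v) w
  inv : ∀ n u w, u ≠ 0 → w ≠ 0 → S n u w → S n u⁻¹ w
  mono : ∀ n m u v, S n u v → S (m * n) u v
  pow : ∀ n k u v, u ≠ 0 → v ≠ 0 → S n (u ^ k) v → S (k * n) u v
  steinberg : ∀ u v, u ≠ 0 → v ≠ 0 → u + v = 1 → S 1 u v
  base : ∀ (f : F) v, f ≠ 0 → v ≠ 0 → S 1 (algebraMap F E f) v

section

variable {F E : Type*} [Field F] [Field E] [Algebra F E] {S : ℕ → E → E → Prop}

namespace Rel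

theorem mul' (h : Rel F E S) {n : ℕ} {u v w : E} (hu : u ≠ 0) (hv : v ≠ 0) (hw : w ≠ 0)
    (h1 : S n w u) (h2 : S n w v) : S n w (u * v) :=
  h.symm _ _ _ (mul_ne_zero hu hv) hw
    (h.mul _ _ _ _ hu hv hw (h.symm _ _ _ hw hu h1) (h.symm _ _ _ hw hv h2))

theorem inv' (h : Rel F E S) {n : ℕ} {u w : E} (hu : u ≠ 0) (hw : w ≠ 0)
    (h1 : S n w u) : S n w u⁻¹ :=
  h.symm _ _ _ (inv_ne_zero hu) hw (h.inv _ _ _ hu hw (h.symm _ _ _ hw hu h1))

theorem div' (h : Rel F E S) {n : ℕ} {u v w : E} (hu : u ≠ 0) (hv : v ≠ 0) (hw : w ≠ 0)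
    (h1 : S n w u) (h2 : S n w v) : S n w (u / v) := by
  rw [div_eq_mul_inv]
  exact h.mul' hu (inv_ne_zero hv) hw h1 (h.inv' hv hw h2)

theorem div (h : Rel F E S) {n : ℕ} {u v w : E} (hu : u ≠ 0) (hv : v ≠ 0) (hw : w ≠ 0)
    (h1 : S n u w) (h2 : S n v w) : S n (u / v) w := by
  rw [div_eq_mul_inv]
  exact h.mul _ _ _ _ hu (inv_ne_zero hv) hw h1 (h.inv _ _ _ hv hw h2)

theorem up (h : Rel F E S) (n : ℕ) {u v : E} (h1 : S 1 u v) : S n u v := by
  have := h.mono 1 n u v h1
  rwa [mul_one] at this

theorem base1 (h : Rel F E S) (n : ℕ) (f : F) {v : E} (hf : algebraMap F E f ≠ 0) (hv : v ≠ 0) :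
    S n (algebraMap F E f) v :=
  h.up n (h.base f v (by rintro rfl; simp at hf) hv)

theorem base2 (h : Rel F E S) (n : ℕ) (f : F) {v : E} (hf : algebraMap F E f ≠ 0) (hv : v ≠ 0) :
    S n v (algebraMap F E f) :=
  h.symm _ _ _ hf hv (h.base1 n f hf hv)

theorem one_left (h : Rel F E S) (n : ℕ) {v : E} (hv : v ≠ 0) : S n 1 v := by
  have := h.base1 n (1 : F) (v := v) (by simp) hv
  simpa using this

theorem one_right (h : Rel F E S) (n : ℕ) {v : E} (hv : v ≠ 0) : S n v 1 :=
  h.symm _ _ _ one_ne_zero hv (h.one_left n hv)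

theorem pow_left (h : Rel F E S) {n : ℕ} {u v : E} (hu : u ≠ 0) (hv : v ≠ 0) (h1 : S n u v)
    (k : ℕ) : S n (u ^ k) v := by
  induction k with
  | zero => rw [pow_zero]; exact h.one_left n hv
  | succ k ih => rw [pow_succ]; exact h.mul _ _ _ _ (pow_ne_zero k hu) hu hv ih h1

/-- `c(u, -u) = 0` -/
theorem neg_self (h : Rel F E S) {u : E} (hu : u ≠ 0) : S 1 u (-u) := by
  rcases eq_or_ne u 1 with rfl | h1
  · exact h.one_left 1 (by simp)
  have h2 : (1 : E) - u ≠ 0 := sub_ne_zero.2 (Ne.symm h1)
  have h3 : (1 : E) - u⁻¹ ≠ 0 := by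
    intro h3
    apply h1
    rw [sub_eq_zero] at h3
    exact (inv_eq_one.1 h3.symm)
  have h4 : S 1 u (1 - u) := h.steinberg _ _ hu h2 (by ring)
  have h5 : S 1 u⁻¹ (1 - u⁻¹) := h.steinberg _ _ (inv_ne_zero hu) h3 (by ring)
  have h6 : S 1 u (1 - u⁻¹) := by
    have := h.inv _ _ _ (inv_ne_zero hu) h3 h5
    rwa [inv_inv] at this
  have h7 : -u = (1 - u) / (1 - u⁻¹) := by
    rw [eq_div_iff h3]
    field_simp
    ring
  rw [h7]
  exact h.div' h2 h3 hu h4 h6

theorem self (h : Rel F E S) {u : E} (hu : u ≠ 0) : S 1 u u := by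
  have h1 := h.neg_self hu
  have h2 : S 1 u (algebraMap F E (-1)) := h.base2 1 (-1) (by simp) hu
  have h3 : u = (-u) * algebraMap F E (-1) := by simp
  have h4 := h.mul' (n := 1) (neg_ne_zero.2 hu) (by simp) hu h1 h2
  rw [← h3] at h4
  exact h4

/-- `c(u, u + x) = 0` for `x` in the base field -/
theorem linear (h : Rel F E S) {u : E} (hu : u ≠ 0) (x : F) (hx : u + algebraMap F E x ≠ 0) :
    S 1 u (u + algebraMap F E x) := by
  rcases eq_or_ne x 0 with rfl | hx0
  · simpa using h.self hu
  have hxE : algebraMap F E x ≠ 0 := by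
    intro h0; apply hx0; exact (map_eq_zero_iff _ (algebraMap F E).injective).1 h0
  set X := algebraMap F E x with hX
  have h1 : (u + X) / X ≠ 0 := div_ne_zero hx hxE
  have h2 : -(u / X) ≠ 0 := neg_ne_zero.2 (div_ne_zero hu hxE)
  have h3 : S 1 (-(u / X)) ((u + X) / X) := by
    apply h.steinberg _ _ h2 h1
    field_simp
    ring
  have h4 : S 1 (-X) ((u + X) / X) := by
    have := h.base1 1 (-x) (v := (u + X) / X) (by rw [map_neg]; exact neg_ne_zero.2 hxE) h1
    rwa [map_neg] at this
  have h5 : S 1 u ((u + X) / X) := by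
    have h6 := h.mul _ _ _ _ h2 (neg_ne_zero.2 hxE) h1 h3 h4
    have h7 : -(u / X) * -X = u := by field_simp
    rwa [h7] at h6
  have h8 : S 1 u X := h.base2 1 x hxE hu
  have h9 := h.mul' h1 hxE hu h5 h8
  rwa [div_mul_cancel₀ _ hxE] at h9

/-- `c(u, y * u + x) = 0` -/
theorem linear2 (h : Rel F E S) {u : E} (hu : u ≠ 0) (x y : F)
    (hx : algebraMap F E y * u + algebraMap F E x ≠ 0) :
    S 1 u (algebraMap F E y * u + algebraMap F E x) := by
  rcases eq_or_ne y 0 with rfl | hy
  · rw [map_zero, zero_mul, zero_add] at hx ⊢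
    exact h.base2 1 x hx hu
  have hyE : algebraMap F E y ≠ 0 := by
    intro h0; apply hy; exact (map_eq_zero_iff _ (algebraMap F E).injective).1 h0
  have h1 : algebraMap F E y * u + algebraMap F E x =
      algebraMap F E y * (u + algebraMap F E (x / y)) := by
    rw [map_div₀]; field_simp
  rw [h1] at hx ⊢
  have h2 : u + algebraMap F E (x / y) ≠ 0 := right_ne_zero_of_mul hx
  exact h.mul' hyE h2 hu (h.base2 1 y hyE hu) (h.linear hu _ h2)

/-- `k * c(u, y * u ^ k + x) = 0` -/
theorem binomial (h : Rel F E S) {u : E} (hu : u ≠ 0) (k : ℕ) (x y : F)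
    (hx : algebraMap F E y * u ^ k + algebraMap F E x ≠ 0) :
    S k u (algebraMap F E y * u ^ k + algebraMap F E x) := by
  have h1 := h.linear2 (pow_ne_zero k hu) x y hx
  have h2 := h.pow 1 k u _ hu hx h1
  rwa [mul_one] at h2

/-- If `E` has degree at most three over `F`, everything is trivial. -/
theorem all_of_le_three [FiniteDimensional F E] (h : Rel F E S) (hE : finrank F E ≤ 3) {u v : E}
    (hu : u ≠ 0) (hv : v ≠ 0) : S 1 u v := by
  by_cases huF : ∃ f : F, algebraMap F E f = u
  · obtain ⟨f, rfl⟩ := huF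
    exact h.base1 1 f hu hv
  have hdep : ¬ LinearIndependent F ![1, u, v, u * v] := by
    intro hli
    have := hli.fintype_card_le_finrank
    simp at this
    omega
  rw [Fintype.not_linearIndependent_iff] at hdep
  obtain ⟨g, hg, i, hi⟩ := hdep
  simp only [Fin.sum_univ_four, Matrix.cons_val_zero, Matrix.cons_val_one, Matrix.cons_val,
    Algebra.smul_def, mul_one] at hg
  set a := g 0
  set b := g 1
  set c := g 2
  set d := g 3
  have hindep : ∀ p q : F, algebraMap F E p + algebraMap F E q * u = 0 → p = 0 ∧ q = 0 := by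
    intro p q hpq
    rcases eq_or_ne q 0 with rfl | hq
    · rw [map_zero, zero_mul, add_zero] at hpq
      exact ⟨(map_eq_zero_iff _ (algebraMap F E).injective).1 hpq, rfl⟩
    · exfalso
      apply huF
      refine ⟨-p / q, ?_⟩
      have hqE : algebraMap F E q ≠ 0 := by
        intro h0; apply hq; exact (map_eq_zero_iff _ (algebraMap F E).injective).1 h0
      rw [map_div₀, map_neg, div_eq_iff hqE]
      linear_combination -hpq
  have hcd : algebraMap F E c + algebraMap F E d * u ≠ 0 := by
    intro h0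
    obtain ⟨hc, hd⟩ := hindep _ _ h0
    have h1 : algebraMap F E a + algebraMap F E b * u = 0 := by
      rw [hc, hd] at hg
      simpa using hg
    obtain ⟨ha, hb⟩ := hindep _ _ h1
    apply hi
    fin_cases i
    · exact ha
    · exact hb
    · exact hc
    · exact hd
  have hab : algebraMap F E a + algebraMap F E b * u ≠ 0 := by
    intro h0
    have h1 : (algebraMap F E c + algebraMap F E d * u) * v = 0 := by
      linear_combination hg - h0
    rcases mul_eq_zero.1 h1 with h2 | h2
    · exact hcd h2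
    · exact hv h2
  have hveq : v = (algebraMap F E (-b) * u + algebraMap F E (-a)) /
      (algebraMap F E d * u + algebraMap F E c) := by
    have h2 : algebraMap F E d * u + algebraMap F E c ≠ 0 := by rwa [add_comm]
    rw [eq_div_iff h2, map_neg, map_neg]
    linear_combination hg
  rw [hveq]
  have h3 : algebraMap F E (-b) * u + algebraMap F E (-a) ≠ 0 := by
    rw [map_neg, map_neg]
    intro h0
    apply hab
    linear_combination -h0
  have h4 : algebraMap F E d * u + algebraMap F E c ≠ 0 := by rwa [add_comm]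
  exact h.div' h3 h4 hu (h.linear2 hu _ _ h3) (h.linear2 hu _ _ h4)

end Rel

end

section tower

variable {F K E : Type*} [Field F] [Field K] [Field E] [Algebra F K] [Algebra K E] [Algebra F E]
  [IsScalarTower F K E] {S : ℕ → E → E → Prop}

/-- restriction to a subfield -/
theorem Rel.restrict (h : Rel F E S) :
    Rel F K (fun n a b => S n (algebraMap K E a) (algebraMap K E b)) := by
  have hinj := (algebraMap K E).injective
  have h0 : ∀ {a : K}, a ≠ 0 → algebraMap K E a ≠ 0 := fun ha h1 =>
    ha ((map_eq_zero_iff _ hinj).1 h1)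
  refine ⟨?_, ?_, ?_, ?_, ?_, ?_, ?_⟩
  · intro n u v hu hv h1
    exact h.symm _ _ _ (h0 hu) (h0 hv) h1
  · intro n u v w hu hv hw h1 h2
    rw [map_mul]
    exact h.mul _ _ _ _ (h0 hu) (h0 hv) (h0 hw) h1 h2
  · intro n u w hu hw h1
    rw [map_inv₀]
    exact h.inv _ _ _ (h0 hu) (h0 hw) h1
  · intro n m u v h1
    exact h.mono _ _ _ _ h1
  · intro n k u v hu hv h1
    rw [map_pow] at h1
    exact h.pow _ _ _ _ (h0 hu) (h0 hv) h1
  · intro u v hu hv huv
    exact h.steinberg _ _ (h0 hu) (h0 hv) (by rw [← map_add, huv, map_one])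
  · intro f v hf hv
    rw [← IsScalarTower.algebraMap_apply F K E]
    exact h.base f _ hf (h0 hv)

/-- change of the base field -/
theorem Rel.change (h : Rel F E S) (n : ℕ)
    (hK : ∀ (a : K) (v : E), a ≠ 0 → v ≠ 0 → S n (algebraMap K E a) v) :
    Rel K E (fun j => S (n * j)) := by
  refine ⟨?_, ?_, ?_, ?_, ?_, ?_, ?_⟩
  · intro j u v hu hv h1
    exact h.symm _ _ _ hu hv h1
  · intro j u v w hu hv hw h1 h2
    exact h.mul _ _ _ _ hu hv hw h1 h2
  · intro j u w hu hw h1
    exact h.inv _ _ _ hu hw h1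
  · intro j m u v h1
    have := h.mono _ m _ _ h1
    rwa [show n * (m * j) = m * (n * j) by ring]
  · intro j k u v hu hv h1
    have := h.pow _ _ _ _ hu hv h1
    rwa [show n * (k * j) = k * (n * j) by ring]
  · intro u v hu hv huv
    have := h.mono _ n _ _ (h.steinberg _ _ hu hv huv)
    exact this
  · intro f v hf hv
    simpa using hK f v hf hv

/-- **Trinomial lemma.** Let `K / F` be a quadratic extension, and let `z ∈ E` satisfy
`z ^ m + s z ^ k = t` with `s, t ∈ K`. Then `m k (m - k) c(z, a) = 0` for all `a ∈ K`. -/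
theorem Rel.trinomial (h : Rel F E S) (hK : finrank F K = 2) {z : E} (hz : z ≠ 0) {m k : ℕ}
    (hkm : k < m) (s t : K) (ht : t ≠ 0)
    (hzt : z ^ m + algebraMap K E s * z ^ k = algebraMap K E t) {a : K} (ha : a ≠ 0) :
    S (m * (k * (m - k))) z (algebraMap K E a) := by
  have hfin : FiniteDimensional F K := FiniteDimensional.of_finrank_pos (by omega)
  have hinj := (algebraMap K E).injective
  have h0 : ∀ {a : K}, a ≠ 0 → algebraMap K E a ≠ 0 := fun ha h1 =>
    ha ((map_eq_zero_iff _ hinj).1 h1)
  set L := k * (m - k) with hL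
  have hKK : ∀ a b : K, a ≠ 0 → b ≠ 0 → S 1 (algebraMap K E a) (algebraMap K E b) := by
    intro a b ha hb
    exact (h.restrict (K := K)).all_of_le_three (by omega) ha hb
  -- main step
  have main : ∀ b : K, b ≠ 0 → S L z (algebraMap K E (t * b ^ m)) := by
    intro b hb
    set q := t * b ^ m with hq
    have hq0 : q ≠ 0 := mul_ne_zero ht (pow_ne_zero _ hb)
    by_cases hqF : ∃ f : F, algebraMap F K f = q
    · obtain ⟨f, hf⟩ := hqF
      rw [← hf, ← IsScalarTower.algebraMap_apply F K E]
      apply h.base2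
      · rw [IsScalarTower.algebraMap_apply F K E, hf]
        exact h0 hq0
      · exact hz
    set u := algebraMap K E b * z with hu
    have hu0 : u ≠ 0 := mul_ne_zero (h0 hb) hz
    suffices hsuff : S L u (algebraMap K E q) by
      have h1 : z = u / algebraMap K E b := by
        rw [hu]; field_simp [h0 hb]
      rw [h1]
      exact h.div hu0 (h0 hb) (h0 hq0) hsuff (h.up L (hKK _ _ hb hq0))
    -- the middle coefficient is `x + y q`
    obtain ⟨x, y, hxy⟩ : ∃ x y : F, s * b ^ (m - k) = algebraMap F K x + algebraMap F K y * q := by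
      have hli : LinearIndependent F ![1, q] := by
        rw [LinearIndependent.pair_iff]
        intro c d hcd
        rw [Algebra.smul_def, Algebra.smul_def, mul_one] at hcd
        rcases eq_or_ne d 0 with rfl | hd
        · rw [map_zero, zero_mul, add_zero] at hcd
          exact ⟨(map_eq_zero_iff _ (algebraMap F K).injective).1 hcd, rfl⟩
        · exfalso
          apply hqF
          refine ⟨-c / d, ?_⟩
          have hdK : algebraMap F K d ≠ 0 := by
            intro h0; apply hd; exact (map_eq_zero_iff _ (algebraMap F K).injective).1 h0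
          rw [map_div₀, map_neg, div_eq_iff hdK]
          linear_combination -hcd
      have hspan := hli.span_eq_top_of_card_eq_finrank (by simp [hK])
      have hmem : s * b ^ (m - k) ∈ Submodule.span F (Set.range ![1, q]) := by
        rw [hspan]; trivial
      rw [Matrix.range_cons, Matrix.range_cons, Matrix.range_empty, Set.union_empty,
        Set.singleton_union, Submodule.mem_span_pair] at hmem
      obtain ⟨x, y, hxy⟩ := hmem
      refine ⟨x, y, ?_⟩
      rw [← hxy, Algebra.smul_def, Algebra.smul_def, mul_one]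
    -- the equation of `u`
    set X := algebraMap F E x with hX
    set Y := algebraMap F E y with hY
    set Q := algebraMap K E q with hQ
    have hQ0 : Q ≠ 0 := h0 hq0
    have humk : u ^ m = u ^ (m - k) * u ^ k := by rw [← pow_add]; congr 1; omega
    have heq : u ^ m + (X + Y * Q) * u ^ k = Q := by
      have h1 : X + Y * Q = algebraMap K E (s * b ^ (m - k)) := by
        rw [hxy, map_add, map_mul, ← IsScalarTower.algebraMap_apply F K E,
          ← IsScalarTower.algebraMap_apply F K E]
      have hmk' : (algebraMap K E b) ^ m = (algebraMap K E b) ^ (m - k) * (algebraMap K E b) ^ k := by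
        rw [← pow_add]; congr 1; omega
      rw [h1, hu, hQ, hq, mul_pow, mul_pow, map_mul, map_mul, map_pow, map_pow, ← hzt, hmk']
      ring
    have heq2 : u ^ k * (1 * u ^ (m - k) + X) = Q * (-Y * u ^ k + 1) := by
      rw [humk] at heq
      linear_combination heq
    by_cases hd : -Y * u ^ k + 1 = 0
    · -- degenerate case: `u ^ k` is in `F`
      have hY0 : Y ≠ 0 := by
        intro hY0
        rw [hY0] at hd
        simp at hd
      have h1 : u ^ k = algebraMap F E (y⁻¹) := by
        rw [map_inv₀]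
        change u ^ k = Y⁻¹
        apply eq_inv_of_mul_eq_one_left
        linear_combination -hd
      have h2 : S 1 (u ^ k) Q := by
        rw [h1]
        apply h.base1 1 _ _ hQ0
        rw [← h1]
        exact pow_ne_zero _ hu0
      have h3 := h.pow _ _ _ _ hu0 hQ0 h2
      rw [mul_one] at h3
      have h4 := h.mono _ (m - k) _ _ h3
      rwa [mul_comm (m - k) k] at h4
    · have hn : 1 * u ^ (m - k) + X ≠ 0 := by
        intro h1
        rw [h1, mul_zero] at heq2
        rcases mul_eq_zero.1 heq2.symm with h2 | h2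
        · exact hQ0 h2
        · exact hd h2
      have hQeq : Q = u ^ k * (1 * u ^ (m - k) + X) / (-Y * u ^ k + 1) := by
        rw [heq2, mul_div_assoc, div_self hd, mul_one]
      rw [hQeq]
      have h1 : S L u (u ^ k) :=
        h.symm _ _ _ (pow_ne_zero _ hu0) hu0 (h.up L (h.pow_left hu0 hu0 (h.self hu0) k))
      have h2 : S L u (1 * u ^ (m - k) + X) := by
        have h3 := h.binomial hu0 (m - k) x 1 (by rw [map_one]; exact hn)
        rw [map_one] at h3
        exact h.mono _ k _ _ h3
      have h3 : S L u (-Y * u ^ k + 1) := by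
        have h4 := h.binomial hu0 k 1 (-y) (by rw [map_one, map_neg]; exact hd)
        rw [map_one, map_neg] at h4
        have h5 := h.mono _ (m - k) _ _ h4
        rwa [mul_comm (m - k) k] at h5
      exact h.div' (mul_ne_zero (pow_ne_zero _ hu0) hn) hd hu0
        (h.mul' (pow_ne_zero _ hu0) hn hu0 h1 h2) h3
  have h1 := main 1 one_ne_zero
  rw [one_pow, mul_one] at h1
  have h2 := main a ha
  have h3 : S L z (algebraMap K E a ^ m) := by
    have h4 := h.div' (h0 (mul_ne_zero ht (pow_ne_zero m ha))) (h0 ht) hz h2 h1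
    rw [map_mul, map_pow, mul_div_assoc, mul_comm, div_mul_cancel₀ _ (h0 ht)] at h4
    exact h4
  have h5 := h.pow _ _ _ _ (h0 ha) hz (h.symm _ _ _ hz (pow_ne_zero _ (h0 ha)) h3)
  exact h.symm _ _ _ (h0 ha) hz h5

end tower

end Pool.Agent.LibK2Tower
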