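import Pool.Agent.LibK2Tower.Cyclo

/-!
Subspaces stable under `x ↦ x ^ q` in characteristic `p`.
-/

set_option autoImplicit false

open Module Polynomial

namespace Pool.Agent.LibK2Tower

section

variable {F E : Type*} [Field F] [Field E] [Algebra F E] {S : ℕ → E → E → Prop}

theorem map_ne_zero_of {a : F} (ha : a ≠ 0) : algebraMap F E a ≠ 0 := fun h =>
  ha ((map_eq_zero_iff _ (algebraMap F E).injective).1 h)

/-- Two linear polynomials in `t` over the base field. -/
theorem Rel.lin_lin (h : Rel F E S) {t : E} {a b c d : F}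
    (h1 : algebraMap F E a * t + algebraMap F E b ≠ 0)
    (h2 : algebraMap F E c * t + algebraMap F E d ≠ 0) :
    S 1 (algebraMap F E a * t + algebraMap F E b) (algebraMap F E c * t + algebraMap F E d) := by
  rcases eq_or_ne a 0 with rfl | ha
  · rw [map_zero, zero_mul, zero_add] at h1 ⊢
    exact h.base1 1 b h1 h2
  have haE : algebraMap F E a ≠ 0 := map_ne_zero_of ha
  have h3 : algebraMap F E c * t + algebraMap F E d =
      algebraMap F E (c / a) * (algebraMap F E a * t + algebraMap F E b) +
        algebraMap F E (d - c / a * b) := by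
    rw [map_sub, map_mul, map_div₀]
    field_simp
    ring
  rw [h3] at h2 ⊢
  exact h.linear2 h1 _ _ h2

/-- Two elements of the form `t (x t ^ m + y)` are orthogonal. -/
theorem Rel.two_terms (h : Rel F E S) {t : E} (ht : t ≠ 0) (m : ℕ) {a b c d : F}
    (h1 : algebraMap F E a * t ^ m + algebraMap F E b ≠ 0)
    (h2 : algebraMap F E c * t ^ m + algebraMap F E d ≠ 0) :
    S m (t * (algebraMap F E a * t ^ m + algebraMap F E b))
      (t * (algebraMap F E c * t ^ m + algebraMap F E d)) := by
  have h3 : S m t t := h.up m (h.self ht)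
  have h4 : S m t (algebraMap F E c * t ^ m + algebraMap F E d) := h.binomial ht m d c h2
  have h5 : S m t (algebraMap F E a * t ^ m + algebraMap F E b) := h.binomial ht m b a h1
  have h6 : S m (algebraMap F E a * t ^ m + algebraMap F E b)
      (algebraMap F E c * t ^ m + algebraMap F E d) := h.up m (h.lin_lin h1 h2)
  have h7 := h.mul' ht h2 ht h3 h4
  have h8 := h.mul' ht h2 h1 (h.symm _ _ _ ht h1 h5) h6
  exact h.mul _ _ _ _ ht h1 (mul_ne_zero ht h2) h7 h8

/-- If `t ^ m` is in the base field, `t` is orthogonal to everything. -/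
theorem Rel.of_pow_mem (h : Rel F E S) {t x : E} (ht : t ≠ 0) (hx : x ≠ 0) {m : ℕ} {r : F}
    (hr : t ^ m = algebraMap F E r) : S m t x := by
  have h1 : S 1 (t ^ m) x := by
    rw [hr]
    exact h.base1 1 r (by rw [← hr]; exact pow_ne_zero m ht) hx
  have h2 := h.pow 1 m t x ht hx h1
  rwa [mul_one] at h2

/-- **Additive relations.** If `V ^ q, V, W ^ q, W` are linearly dependent over the base field,
where `x ↦ x ^ q` is additive, then `q ^ 2 (q - 1) c(V, W) = 0`. -/
theorem Rel.of_additive (h : Rel F E S) {q : ℕ} (hq : 1 ≤ q)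
    (hlin : ∀ x y : E, (x + y) ^ q = x ^ q + y ^ q) {V W : E} (hV : V ≠ 0) (hW : W ≠ 0)
    {a b c d : F} (hrel : algebraMap F E a * V ^ q + algebraMap F E b * V +
      algebraMap F E c * W ^ q + algebraMap F E d * W = 0)
    (hne : a ≠ 0 ∨ b ≠ 0 ∨ c ≠ 0 ∨ d ≠ 0) : S (q * (q * (q - 1))) V W := by
  set A := algebraMap F E a with hA
  set B := algebraMap F E b with hB
  set C := algebraMap F E c with hC
  set D := algebraMap F E d with hD
  by_cases hac : a = 0 ∧ c = 0
  · -- `b V + d W = 0`
    obtain ⟨ha, hc⟩ := hac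
    have h1 : B * V + D * W = 0 := by
      have := hrel
      rw [hA, hC, ha, hc] at this
      simpa using this
    have hb : b ≠ 0 := by
      intro hb
      have hd : d ≠ 0 := by
        rcases hne with h3 | h3 | h3 | h3
        · exact absurd ha h3
        · exact absurd hb h3
        · exact absurd hc h3
        · exact h3
      rw [hB, hb] at h1
      simp only [map_zero, zero_mul, zero_add] at h1
      rcases mul_eq_zero.1 h1 with h3 | h3
      · exact map_ne_zero_of hd h3
      · exact hW h3
    have hBE : B ≠ 0 := map_ne_zero_of hb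
    have h3 : V = algebraMap F E (-(d / b)) * W + algebraMap F E 0 := by
      rw [map_neg, map_div₀, map_zero, add_zero]
      rw [← hB, ← hD]
      field_simp
      linear_combination h1
    have h4 := h.linear2 hW 0 (-(d / b)) (by rw [← h3]; exact hV)
    rw [← h3] at h4
    exact h.up _ (h.symm _ _ _ hW hV h4)
  set U := V ^ q with hU
  set Y := W ^ q with hY
  have hU0 : U ≠ 0 := pow_ne_zero q hV
  have hY0 : Y ≠ 0 := pow_ne_zero q hW
  suffices hs : S (q - 1) U Y by
    have h1 := h.pow (q - 1) q V Y hV hY0 hs
    have h2 := h.pow _ q W V hW hV (h.symm _ _ _ hV hY0 h1)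
    exact h.symm _ _ _ hW hV h2
  have hrelq : A ^ q * U ^ q + B ^ q * U + C ^ q * Y ^ q + D ^ q * Y = 0 := by
    have h1 : (A * V ^ q + B * V + C * W ^ q + D * W) ^ q = 0 := by
      rw [hrel]; exact zero_pow (by omega)
    rw [hlin, hlin, hlin, mul_pow, mul_pow, mul_pow, mul_pow] at h1
    exact h1
  set t := A * U + C * Y with ht
  have htq : t ^ q = -(B ^ q * U) - D ^ q * Y := by
    rw [ht, hlin, mul_pow, mul_pow]
    linear_combination hrelq
  have hq' : ∀ x : E, x ^ q = x ^ (q - 1) * x := by
    intro x
    rw [← pow_succ]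
    congr 1
    omega
  by_cases hdet : c * b ^ q - a * d ^ q = 0
  · -- degenerate case: `(b ^ q, d ^ q) = r (a, c)`
    obtain ⟨r, hr1, hr2⟩ : ∃ r : F, b ^ q = r * a ∧ d ^ q = r * c := by
      by_cases ha : a = 0
      · have hc : c ≠ 0 := fun hc => hac ⟨ha, hc⟩
        refine ⟨d ^ q / c, ?_, ?_⟩
        · rw [ha] at hdet ⊢
          rw [zero_mul, sub_zero] at hdet
          rcases mul_eq_zero.1 hdet with h1 | h1
          · exact absurd h1 hc
          · rw [h1, mul_zero]
        · field_simp
      · refine ⟨b ^ q / a, ?_, ?_⟩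
        · field_simp
        · field_simp
          linear_combination -hdet
    have h1 : t * (t ^ (q - 1) + algebraMap F E r) = 0 := by
      have h2 : B ^ q = algebraMap F E r * A := by
        rw [hB, hA, ← map_pow, hr1, map_mul]
      have h3 : D ^ q = algebraMap F E r * C := by
        rw [hD, hC, ← map_pow, hr2, map_mul]
      rw [h2, h3] at htq
      have h4 : t * (t ^ (q - 1) + algebraMap F E r) = t ^ q + algebraMap F E r * t := by
        rw [hq' t]; ring
      rw [h4, htq]
      nth_rewrite 1 [ht]
      ring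
    rcases mul_eq_zero.1 h1 with h2 | h2
    · -- `t = 0`
      rw [ht] at h2
      have ha : a ≠ 0 := by
        intro ha
        have hc : c ≠ 0 := fun hc => hac ⟨ha, hc⟩
        rw [hA, ha, map_zero, zero_mul, zero_add] at h2
        rcases mul_eq_zero.1 h2 with h3 | h3
        · exact map_ne_zero_of hc h3
        · exact hY0 h3
      have hAE : A ≠ 0 := map_ne_zero_of ha
      have h3 : U = algebraMap F E (-(c / a)) * Y + algebraMap F E 0 := by
        rw [map_neg, map_div₀, map_zero, add_zero, ← hA, ← hC]
        field_simp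
        linear_combination h2
      have h4 := h.linear2 hY0 0 (-(c / a)) (by rw [← h3]; exact hU0)
      rw [← h3] at h4
      exact h.up (q - 1) (h.symm _ _ _ hY0 hU0 h4)
    · -- `t ^ (q - 1)` is in the base field
      by_cases ht0 : t = 0
      · -- then `t = 0` again
        rw [ht] at ht0
        have ha : a ≠ 0 := by
          intro ha
          have hc : c ≠ 0 := fun hc => hac ⟨ha, hc⟩
          rw [hA, ha, map_zero, zero_mul, zero_add] at ht0
          rcases mul_eq_zero.1 ht0 with h3 | h3
          · exact map_ne_zero_of hc h3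
          · exact hY0 h3
        have hAE : A ≠ 0 := map_ne_zero_of ha
        have h3 : U = algebraMap F E (-(c / a)) * Y + algebraMap F E 0 := by
          rw [map_neg, map_div₀, map_zero, add_zero, ← hA, ← hC]
          field_simp
          linear_combination ht0
        have h4 := h.linear2 hY0 0 (-(c / a)) (by rw [← h3]; exact hU0)
        rw [← h3] at h4
        exact h.up (q - 1) (h.symm _ _ _ hY0 hU0 h4)
      have htors : ∀ x : E, x ≠ 0 → S (q - 1) t x := by
        intro x hx
        refine h.of_pow_mem ht0 hx (r := -r) ?_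
        rw [map_neg]
        linear_combination h2
      by_cases ha : a = 0
      · -- `Y = t / c`
        have hc : c ≠ 0 := fun hc => hac ⟨ha, hc⟩
        have hCE : C ≠ 0 := map_ne_zero_of hc
        have h3 : Y = t / C := by
          rw [eq_div_iff hCE, ht, hA, ha, map_zero, zero_mul, zero_add, mul_comm]
        rw [h3]
        exact h.div' ht0 hCE hU0 (h.symm _ _ _ ht0 hU0 (htors U hU0)) (h.base2 _ c hCE hU0)
      · have hAE : A ≠ 0 := map_ne_zero_of ha
        by_cases hc : c = 0
        · -- `U = t / a`
          have h3 : U = t / A := by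
            rw [eq_div_iff hAE, ht, hC, hc, map_zero, zero_mul, add_zero, mul_comm]
          rw [h3]
          exact h.div ht0 hAE hY0 (htors Y hY0) (h.base1 _ a hAE hY0)
        · have hCE : C ≠ 0 := map_ne_zero_of hc
          set X1 := A * U / t with hX1
          set X2 := C * Y / t with hX2
          have hX10 : X1 ≠ 0 := div_ne_zero (mul_ne_zero hAE hU0) ht0
          have hX20 : X2 ≠ 0 := div_ne_zero (mul_ne_zero hCE hY0) ht0
          have hst : S (q - 1) X1 X2 := by
            apply h.up
            apply h.steinberg _ _ hX10 hX20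
            rw [hX1, hX2, ← add_div, div_eq_one_iff_eq ht0, ht]
          have hU1 : U = X1 * t / A := by
            rw [hX1]; field_simp
          have hY1 : Y = X2 * t / C := by
            rw [hX2]; field_simp
          have h5 : S (q - 1) X1 Y := by
            rw [hY1]
            exact h.div' (mul_ne_zero hX20 ht0) hCE hX10
              (h.mul' hX20 ht0 hX10 hst (h.symm _ _ _ ht0 hX10 (htors X1 hX10)))
              (h.base2 _ c hCE hX10)
          rw [hU1]
          exact h.div (mul_ne_zero hX10 ht0) hAE hY0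
            (h.mul _ _ _ _ hX10 ht0 hY0 h5 (htors Y hY0)) (h.base1 _ a hAE hY0)
  · -- main case
    set δ := c * b ^ q - a * d ^ q with hδ
    have hδE : algebraMap F E δ ≠ 0 := map_ne_zero_of hdet
    have hδ' : algebraMap F E δ = C * B ^ q - A * D ^ q := by
      rw [hδ, map_sub, map_mul, map_mul, map_pow, map_pow]
    have h1 : U = t * (algebraMap F E (-c / δ) * t ^ (q - 1) + algebraMap F E (-d ^ q / δ)) := by
      rw [map_div₀, map_div₀, map_neg, map_neg, map_pow, ← hC, ← hD]
      have h2 : t * (-C / algebraMap F E δ * t ^ (q - 1) + -D ^ q / algebraMap F E δ) =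
          -(C * t ^ q + D ^ q * t) / algebraMap F E δ := by
        rw [hq' t]
        field_simp
        ring
      rw [h2, eq_div_iff hδE, htq, hδ']
      nth_rewrite 1 [ht]
      ring
    have h2 : Y = t * (algebraMap F E (a / δ) * t ^ (q - 1) + algebraMap F E (b ^ q / δ)) := by
      rw [map_div₀, map_div₀, map_pow, ← hA, ← hB]
      have h3 : t * (A / algebraMap F E δ * t ^ (q - 1) + B ^ q / algebraMap F E δ) =
          (A * t ^ q + B ^ q * t) / algebraMap F E δ := by
        rw [hq' t]
        field_simp
      rw [h3, eq_div_iff hδE, htq, hδ']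
      nth_rewrite 1 [ht]
      ring
    have ht0 : t ≠ 0 := by
      intro h0
      rw [h0, zero_mul] at h1
      exact hU0 h1
    have h3 : algebraMap F E (-c / δ) * t ^ (q - 1) + algebraMap F E (-d ^ q / δ) ≠ 0 := by
      intro h0
      rw [h0, mul_zero] at h1
      exact hU0 h1
    have h4 : algebraMap F E (a / δ) * t ^ (q - 1) + algebraMap F E (b ^ q / δ) ≠ 0 := by
      intro h0
      rw [h0, mul_zero] at h2
      exact hY0 h2
    rw [h1, h2]
    exact h.two_terms ht0 (q - 1) h3 h4

/-- Every element is a quotient of two elements of a subspace of dimension more than half of the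
degree. -/
theorem exists_quotient [FiniteDimensional F E] (W : Submodule F E)
    (hW : finrank F E < 2 * finrank F W) {z : E} (hz : z ≠ 0) :
    ∃ v ∈ W, ∃ v' ∈ W, v ≠ 0 ∧ v' ≠ 0 ∧ z = v / v' := by
  let φ : (W × W) →ₗ[F] E :=
    { toFun := fun v => (v.1 : E) - z * (v.2 : E)
      map_add' := by
        intro u v
        simp only [Prod.fst_add, Prod.snd_add, Submodule.coe_add]
        ring
      map_smul' := by
        intro r v
        simp only [Prod.smul_fst, Prod.smul_snd, Submodule.coe_smul, RingHom.id_apply,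
          Algebra.smul_def]
        ring }
  have hker : LinearMap.ker φ ≠ ⊥ := by
    intro hk
    have h1 := LinearMap.finrank_le_finrank_of_injective (LinearMap.ker_eq_bot.1 hk)
    rw [finrank_prod] at h1
    omega
  obtain ⟨⟨v, v'⟩, hv, hne⟩ := Submodule.exists_mem_ne_zero_of_ne_bot hker
  have heq : (v : E) = z * (v' : E) := by
    have h1 : (v : E) - z * (v' : E) = 0 := hv
    exact sub_eq_zero.1 h1
  have h2 : (v' : E) ≠ 0 := by
    intro h0
    rw [h0, mul_zero] at heq
    apply hne
    have e1 : v = 0 := Subtype.ext heq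
    have e2 : v' = 0 := Subtype.ext h0
    rw [e1, e2]; rfl
  refine ⟨v, v.2, v', v'.2, ?_, h2, ?_⟩
  · rw [heq]; exact mul_ne_zero hz h2
  · rw [heq, mul_div_assoc, div_self h2, mul_one]

/-- **Stable subspaces.** If `E` has degree at most 5 and a 3-dimensional subspace stable under the
additive map `x ↦ x ^ q`, everything is killed by `q ^ 2 (q - 1)`. -/
theorem Rel.of_stable (h : Rel F E S) {q : ℕ} (hq : 1 ≤ q)
    (hlin : ∀ x y : E, (x + y) ^ q = x ^ q + y ^ q) (W : Submodule F E)
    (hW : finrank F W = 3) (hWq : ∀ x ∈ W, x ^ q ∈ W) (hE : finrank F E ≤ 5)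
    (hfin : FiniteDimensional F E) {u v : E}
    (hu : u ≠ 0) (hv : v ≠ 0) : S (q * (q * (q - 1))) u v := by
  have key : ∀ x ∈ W, ∀ y ∈ W, x ≠ 0 → y ≠ 0 → S (q * (q * (q - 1))) x y := by
    intro x hx y hy hx0 hy0
    let f : Fin 4 → W := ![⟨x ^ q, hWq x hx⟩, ⟨x, hx⟩, ⟨y ^ q, hWq y hy⟩, ⟨y, hy⟩]
    have hdep : ¬ LinearIndependent F f := by
      intro hli
      have := hli.fintype_card_le_finrank
      rw [hW, Fintype.card_fin] at this
      omega
    rw [Fintype.not_linearIndependent_iff] at hdep
    obtain ⟨g, hg, i, hi⟩ := hdep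
    rw [Fin.sum_univ_four] at hg
    have hg' := congrArg (Submodule.subtype W) hg
    simp only [map_add, map_smul, Submodule.subtype_apply, map_zero, f, Matrix.cons_val_zero,
      Matrix.cons_val_one, Matrix.cons_val, Algebra.smul_def] at hg'
    refine h.of_additive hq hlin hx0 hy0 (a := g 0) (b := g 1) (c := g 2) (d := g 3) hg' ?_
    fin_cases i
    · exact Or.inl hi
    · exact Or.inr (Or.inl hi)
    · exact Or.inr (Or.inr (Or.inl hi))
    · exact Or.inr (Or.inr (Or.inr hi))
  obtain ⟨a, ha, b, hb, ha0, hb0, rfl⟩ := exists_quotient W (by omega) hu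
  obtain ⟨a', ha', b', hb', ha0', hb0', rfl⟩ := exists_quotient W (by omega) hv
  have h1 := h.div' ha0' hb0' ha0 (key a ha a' ha' ha0 ha0') (key a ha b' hb' ha0 hb0')
  have h2 := h.div' ha0' hb0' hb0 (key b hb a' ha' hb0 ha0') (key b hb b' hb' hb0 hb0')
  exact h.div ha0 hb0 (div_ne_zero ha0' hb0') h1 h2

end

end Pool.Agent.LibK2Tower
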