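import Pool.Agent.LibK2Tower.Stable

/-!
Galois extensions of degree five in characteristic `p`, when `X ^ 2 - X - 1` has a root in `F`.
-/

set_option autoImplicit false

open Module Polynomial

namespace Pool.Agent.LibK2Tower

open Pool.Agent.LibDivBr

section

variable {F E : Type*} [Field F] [Field E] [Algebra F E] {S : ℕ → E → E → Prop}

theorem exists_normal [IsGalois F E] (hE : finrank F E = 5) :
    ∃ (σ : Gal(E/F)) (θ : E), (∀ y : E, σ (σ (σ (σ (σ y)))) = y) ∧
      ∀ c : Fin 5 → F, algebraMap F E (c 0) * θ + algebraMap F E (c 1) * σ θ +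
        algebraMap F E (c 2) * σ (σ θ) + algebraMap F E (c 3) * σ (σ (σ θ)) +
        algebraMap F E (c 4) * σ (σ (σ (σ θ))) = 0 → ∀ i, c i = 0 := by
  have hfin : FiniteDimensional F E := FiniteDimensional.of_finrank_pos (by omega)
  have hcard : Nat.card Gal(E/F) = 5 := by rw [IsGalois.card_aut_eq_finrank, hE]
  have hfact : Fact (Nat.Prime 5) := ⟨by norm_num⟩
  have hnt : Nontrivial Gal(E/F) := by
    have : Finite Gal(E/F) := Nat.finite_of_card_ne_zero (by rw [hcard]; norm_num)
    exact (Finite.one_lt_card_iff_nontrivial).1 (by rw [hcard]; norm_num)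
  obtain ⟨σ, hσ⟩ := exists_ne (1 : Gal(E/F))
  have hgen : ∀ τ : Gal(E/F), τ ∈ Subgroup.zpowers σ := fun τ =>
    mem_zpowers_of_prime_card hcard hσ
  have hord : orderOf σ = 5 := by
    rw [orderOf_eq_card_of_forall_mem_zpowers hgen, hcard]
  have hσ5 : σ ^ 5 = 1 := by rw [← hord]; exact pow_orderOf_eq_one σ
  obtain ⟨θ, hθ⟩ := exists_linearIndependent_algEquiv_apply F E
  refine ⟨σ, θ, ?_, ?_⟩
  · intro y
    have h1 : (σ ^ 5) y = y := by rw [hσ5]; rfl
    simpa [pow_succ] using h1
  · intro c hc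
    have hinj : Function.Injective (fun j : Fin 5 => σ ^ (j : ℕ)) := by
      intro j k hjk
      have h1 := pow_injOn_Iio_orderOf (x := σ) (by simp [hord])
        (by simp [hord]) hjk
      exact Fin.ext h1
    have hli := hθ.comp _ hinj
    have h2 := Fintype.linearIndependent_iff.1 hli c
    apply h2
    rw [Fin.sum_univ_five]
    simp only [Function.comp_apply, Fin.val_zero, Fin.val_one, Fin.val_two, pow_zero, pow_one,
      AlgEquiv.one_apply, Algebra.smul_def]
    rw [← hc]
    have e3 : ((3 : Fin 5) : ℕ) = 3 := rfl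
    have e4 : ((4 : Fin 5) : ℕ) = 4 := rfl
    rw [e3, e4]
    simp only [pow_succ, pow_zero, one_mul, AlgEquiv.mul_apply]

/-- The kernel of `σ ^ 3 - s σ ^ 2 + s σ - 1`. -/
theorem exists_stable [IsGalois F E] (hE : finrank F E = 5) {s : F} (hs : s ^ 2 = s + 1) :
    ∃ W : Submodule F E, finrank F W = 3 ∧ ∀ q : ℕ, (∀ x y : E, (x + y) ^ q = x ^ q + y ^ q) →
      s ^ q = s → ∀ x ∈ W, x ^ q ∈ W := by
  have hfin : FiniteDimensional F E := FiniteDimensional.of_finrank_pos (by omega)
  obtain ⟨σ, θ, hσ5, hθ⟩ := exists_normal (F := F) (E := E) hE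
  set s' := algebraMap F E s with hs'
  have hss : s' ^ 2 = s' + 1 := by rw [hs', ← map_pow, hs, map_add, map_one]
  have hσs : σ s' = s' := σ.commutes s
  let N : E →ₗ[F] E :=
    { toFun := fun y => σ (σ (σ y)) + s' * σ y - (s' * σ (σ y) + y)
      map_add' := by
        intro x y
        simp only [map_add]
        ring
      map_smul' := by
        intro r y
        simp only [Algebra.smul_def, map_mul, AlgEquiv.commutes, RingHom.id_apply]
        ring }
  have hN : ∀ y : E, N y = σ (σ (σ y)) + s' * σ y - (s' * σ (σ y) + y) := fun y => rfl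
  have hNe : ∀ y : E, N (σ (σ y) + s' * σ y + y) = 0 := by
    intro y
    rw [hN]
    simp only [map_add, map_mul, hσs]
    linear_combination hσ5 y + (σ (σ y) - σ (σ (σ y))) * hss
  have hker : 3 ≤ finrank F (LinearMap.ker N) := by
    let f : Fin 3 → LinearMap.ker N :=
      ![⟨_, hNe θ⟩, ⟨_, hNe (σ θ)⟩, ⟨_, hNe (σ (σ θ))⟩]
    have hli : LinearIndependent F f := by
      rw [Fintype.linearIndependent_iff]
      intro g hg
      rw [Fin.sum_univ_three] at hg
      have hg' := congrArg (Submodule.subtype (LinearMap.ker N)) hg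
      simp only [map_add, map_smul, Submodule.subtype_apply, map_zero, f, Matrix.cons_val_zero,
        Matrix.cons_val_one, Matrix.cons_val, Algebra.smul_def] at hg'
      have h1 := hθ ![g 0, s * g 0 + g 1, g 0 + s * g 1 + g 2, g 1 + s * g 2, g 2] (by
        simp only [Matrix.cons_val_zero, Matrix.cons_val_one, Matrix.cons_val, map_add, map_mul]
        rw [← hs']
        linear_combination hg')
      have e0 := h1 0
      have e1 := h1 1
      have e2 := h1 2
      simp only [Matrix.cons_val_zero, Matrix.cons_val_one, Matrix.cons_val] at e0 e1 e2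
      have e1' : g 1 = 0 := by rw [e0, mul_zero, zero_add] at e1; exact e1
      have e2' : g 2 = 0 := by rw [e0, e1', mul_zero, zero_add, zero_add] at e2; exact e2
      intro i
      fin_cases i
      · exact e0
      · exact e1'
      · exact e2'
    have := hli.fintype_card_le_finrank
    rwa [Fintype.card_fin] at this
  have hrange : 2 ≤ finrank F (LinearMap.range N) := by
    let f : Fin 2 → LinearMap.range N :=
      ![⟨_, LinearMap.mem_range_self N θ⟩, ⟨_, LinearMap.mem_range_self N (σ θ)⟩]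
    have hli : LinearIndependent F f := by
      rw [Fintype.linearIndependent_iff]
      intro g hg
      rw [Fin.sum_univ_two] at hg
      have hg' := congrArg (Submodule.subtype (LinearMap.range N)) hg
      simp only [map_add, map_smul, Submodule.subtype_apply, map_zero, f, Matrix.cons_val_zero,
        Matrix.cons_val_one, Algebra.smul_def, hN] at hg'
      have h1 := hθ ![-g 0, s * g 0 - g 1, -s * g 0 + s * g 1, g 0 - s * g 1, g 1] (by
        simp only [Matrix.cons_val_zero, Matrix.cons_val_one, Matrix.cons_val, map_add, map_mul,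
          map_sub, map_neg]
        rw [← hs']
        linear_combination hg')
      have e0 := h1 0
      have e4 := h1 4
      simp only [Matrix.cons_val_zero, Matrix.cons_val] at e0 e4
      intro i
      fin_cases i
      · exact neg_eq_zero.1 e0
      · exact e4
    have := hli.fintype_card_le_finrank
    rwa [Fintype.card_fin] at this
  have hrn := LinearMap.finrank_range_add_finrank_ker N
  refine ⟨LinearMap.ker N, by omega, ?_⟩
  intro q hlin hsq x hx
  have hx' : σ (σ (σ x)) + s' * σ x = s' * σ (σ x) + x := by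
    have h1 : N x = 0 := hx
    rw [hN, sub_eq_zero] at h1
    exact h1
  have hsq' : s' ^ q = s' := by rw [hs', ← map_pow, hsq]
  have h2 : (σ (σ (σ x)) + s' * σ x) ^ q = (s' * σ (σ x) + x) ^ q := by rw [hx']
  rw [hlin, hlin, mul_pow, mul_pow, hsq'] at h2
  change N (x ^ q) = 0
  rw [hN, sub_eq_zero]
  simp only [map_pow]
  exact h2

/-- Galois extensions of degree 5 in characteristic `p`, `s ^ 2 = s + 1`, `s ^ q = s`. -/
theorem Rel.of_galois_five [IsGalois F E] (h : Rel F E S) (hE : finrank F E = 5) {p r : ℕ}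
    [CharP F p] (hp : p.Prime) {s : F} (hs : s ^ 2 = s + 1)
    (hsq : s ^ p ^ r = s) {u v : E} (hu : u ≠ 0) (hv : v ≠ 0) :
    S (p ^ r * (p ^ r * (p ^ r - 1))) u v := by
  have hfin : FiniteDimensional F E := FiniteDimensional.of_finrank_pos (by omega)
  have hchar : CharP E p := charP_of_injective_algebraMap (algebraMap F E).injective p
  have hfact : Fact p.Prime := ⟨hp⟩
  obtain ⟨W, hW, hWq⟩ := exists_stable (F := F) (E := E) hE hs
  have hlin : ∀ x y : E, (x + y) ^ p ^ r = x ^ p ^ r + y ^ p ^ r := fun x y =>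
    add_pow_char_pow x y p r
  exact h.of_stable (Nat.one_le_pow _ _ hp.pos) hlin W hW (hWq _ hlin hsq) (by omega) hfin hu hv

theorem golden_pow {p : ℕ} [CharP F p] (hp : p.Prime) {s : F} (hs : s ^ 2 = s + 1) :
    s ^ p ^ 2 = s := by
  have hfact : Fact p.Prime := ⟨hp⟩
  have hlin : ∀ x y : F, (x + y) ^ p = x ^ p + y ^ p := fun x y => add_pow_char x y p
  have h1 : (s ^ p) ^ 2 = s ^ p + 1 := by
    rw [← pow_mul, mul_comm, pow_mul, hs, hlin, one_pow]
  have h2 : (s ^ p - s) * (s ^ p - (1 - s)) = 0 := by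
    linear_combination h1 - hs
  have h3 : s ^ p ^ 2 = (s ^ p) ^ p := by rw [← pow_mul, sq]
  rw [h3]
  rcases mul_eq_zero.1 h2 with h4 | h4
  · have h5 : s ^ p = s := sub_eq_zero.1 h4
    rw [h5, h5]
  · have h5 : s ^ p = 1 - s := sub_eq_zero.1 h4
    have h6 : s + (1 - s) = 1 := by ring
    have h7 := hlin s (1 - s)
    rw [h6, one_pow, h5] at h7
    rw [h5]
    linear_combination -h7

/-- Elements of `E` with `x ^ p = x` lie in the prime field. -/
theorem mem_of_pow_char {p : ℕ} [CharP F p] (hp : p.Prime) {x : E} (hx : x ^ p = x) :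
    ∃ f : F, algebraMap F E f = x := by
  have hfact : Fact p.Prime := ⟨hp⟩
  let φ : ZMod p →+* E := (algebraMap F E).comp (ZMod.castHom (dvd_refl p) F)
  have hroots := FiniteField.roots_X_pow_card_sub_X (ZMod p)
  rw [ZMod.card] at hroots
  have hdeg : (X ^ p - X : (ZMod p)[X]).natDegree = p :=
    FiniteField.X_pow_card_sub_X_natDegree_eq (ZMod p) hp.one_lt
  have hcard : Multiset.card (X ^ p - X : (ZMod p)[X]).roots =
      (X ^ p - X : (ZMod p)[X]).natDegree := by
    rw [hroots, hdeg]
    simp [ZMod.card]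
  have hsp : (X ^ p - X : (ZMod p)[X]).Splits := splits_iff_card_roots.2 hcard
  have h1 := hsp.roots_map φ
  have hne : ((X ^ p - X : (ZMod p)[X]).map φ) ≠ 0 := by
    apply Polynomial.map_ne_zero
    exact FiniteField.X_pow_card_sub_X_ne_zero (ZMod p) hp.one_lt
  have h2 : x ∈ ((X ^ p - X : (ZMod p)[X]).map φ).roots := by
    rw [mem_roots hne, IsRoot.def, eval_map, eval₂_sub, eval₂_pow, eval₂_X, hx, sub_self]
  rw [h1, Multiset.mem_map] at h2
  obtain ⟨a, -, ha⟩ := h2
  exact ⟨ZMod.castHom (dvd_refl p) F a, ha⟩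

theorem not_dvd_of_cyclo {l p : ℕ} (hl : l.Prime) (hc : IsCyclotomicExtension {l} F E)
    (hE : finrank F E = 5) [CharP F p] (hp : p.Prime) : ¬ l ∣ p ^ 2 * (p ^ 2 * (p ^ 2 - 1)) := by
  have hne : NeZero l := ⟨hl.ne_zero⟩
  have hfin : FiniteDimensional F E := FiniteDimensional.of_finrank_pos (by omega)
  have hchar : CharP E p := charP_of_injective_algebraMap (algebraMap F E).injective p
  have hfact : Fact p.Prime := ⟨hp⟩
  have hlin : ∀ x y : E, (x + y) ^ p = x ^ p + y ^ p := fun x y => add_pow_char x y p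
  set ζ := IsCyclotomicExtension.zeta l F E with hζdef
  have hζ : IsPrimitiveRoot ζ l := IsCyclotomicExtension.zeta_spec l F E
  intro hdvd
  have hlp : l ≠ p := by
    rintro rfl
    have h1 : (ζ - 1) ^ l = 0 := by
      have h2 : ((ζ - 1) + 1) ^ l = (ζ - 1) ^ l + 1 ^ l := hlin _ _
      rw [sub_add_cancel, hζ.pow_eq_one, one_pow] at h2
      linear_combination -h2
    have h2 : ζ = 1 := sub_eq_zero.1 (pow_eq_zero_iff hl.ne_zero |>.1 h1)
    have h3 := hζ.dvd_of_pow_eq_one 1 (by rw [h2, one_pow])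
    exact hl.one_lt.ne' (Nat.dvd_one.1 h3)
  have hnp : ¬ l ∣ p ^ 2 := fun h => hlp ((Nat.prime_dvd_prime_iff_eq hl hp).1 (hl.dvd_of_dvd_pow h))
  have hd : l ∣ p ^ 2 - 1 := by
    rcases hl.dvd_mul.1 hdvd with h | h
    · exact absurd h hnp
    · rcases hl.dvd_mul.1 h with h | h
      · exact absurd h hnp
      · exact h
  have hpow : ζ ^ p ^ 2 = ζ := by
    obtain ⟨k, hk⟩ := hd
    have h1 : p ^ 2 = l * k + 1 := by
      have : 1 ≤ p ^ 2 := Nat.one_le_pow _ _ hp.pos
      omega
    rw [h1, pow_add, pow_mul, hζ.pow_eq_one, one_pow, one_mul, pow_one]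
  have hpp : (ζ ^ p) ^ p = ζ := by rw [← pow_mul, ← sq, hpow]
  obtain ⟨a, ha⟩ := mem_of_pow_char (F := F) hp (x := ζ + ζ ^ p) (by
    rw [hlin, hpp, add_comm])
  obtain ⟨b, hb⟩ := mem_of_pow_char (F := F) hp (x := ζ * ζ ^ p) (by
    rw [mul_pow, hpp, mul_comm])
  have hint : IsIntegral F ζ := IsIntegral.of_finite F ζ
  have h3 : (minpoly F ζ).natDegree ∣ 5 := by
    rw [← hE]; exact minpoly.degree_dvd hint
  have h4 : (minpoly F ζ).natDegree ≤ 2 := by
    have h5 : aeval ζ (X ^ 2 - C a * X + C b : F[X]) = 0 := by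
      simp only [map_add, map_sub, map_mul, map_pow, aeval_X, aeval_C, ha, hb]
      ring
    have hm : (X ^ 2 - C a * X + C b : F[X]).Monic := by
      monicity!
    have h6 := minpoly.min F ζ hm h5
    have h7 := natDegree_le_natDegree h6
    refine h7.trans ?_
    compute_degree
  have h5 : (minpoly F ζ).natDegree = 1 := by
    rcases (Nat.dvd_prime (by norm_num : Nat.Prime 5)).1 h3 with h6 | h6
    · exact h6
    · omega
  obtain ⟨f, hf⟩ := (minpoly.natDegree_eq_one_iff).1 h5
  have htop := IsCyclotomicExtension.adjoin_primitive_root_eq_top (A := F) (B := E) hζ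
  have hbot : Algebra.adjoin F {ζ} = ⊥ := by
    rw [eq_bot_iff]
    apply Algebra.adjoin_le
    rintro x hx
    rw [Set.mem_singleton_iff] at hx
    rw [hx, ← hf]
    exact algebraMap_mem _ f
  rw [htop] at hbot
  have h8 : finrank F E = 1 := Subalgebra.bot_eq_top_iff_finrank_eq_one.1 hbot.symm
  omega

end

universe u

theorem K2_galois_five {F E : Type u} [Field F] [Field E] [Algebra F E] [IsGalois F E]
    {p r : ℕ} [CharP F p] (hp : p.Prime) (hE : finrank F E = 5) {s : F} (hs : s ^ 2 = s + 1)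
    (hsq : s ^ p ^ r = s) (x : K2 E) :
    ((p ^ r) ^ 2 * (p ^ r - 1)) • x ∈ baseSymbols F E := by
  rw [sq, mul_assoc]
  apply smul_mem_baseSymbols
  intro G _ c hc hF u v
  have h1 := (hc.rel hF).of_galois_five hE hp hs hsq u.ne_zero v.ne_zero u.ne_zero v.ne_zero
  simpa using h1

/-- Cyclic algebras of degree `l` over `F(ζ_l)` split. -/
theorem cyclicTrivial_five {F E : Type} [Field F] [Field E] [Algebra F E] {l : ℕ}
    (hc : IsCyclotomicExtension {l} F E) (hl : l.Prime) (hE : finrank F E = 5) {p : ℕ}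
    [CharP F p] (hp : p.Prime) {s : F} (hs : s ^ 2 = s + 1)
    (hF : ∀ a : F, ∃ b : F, b ^ l = a) : CyclicTrivial E l := by
  have hne : NeZero l := ⟨hl.ne_zero⟩
  have hG : IsGalois F E := IsCyclotomicExtension.isGalois {l} F E
  have hζ := IsCyclotomicExtension.zeta_spec l F E
  refine cyclicTrivial_of_NR hl ⟨_, hζ⟩ ?_
  intro u v hu hv
  refine (NR.rel hl hζ hF).of_galois_five hE hp hs (golden_pow hp hs) hu hv ?_
  exact Nat.Coprime.symm ((Nat.Prime.coprime_iff_not_dvd hl).2 (not_dvd_of_cyclo hl hc hE hp))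

end Pool.Agent.LibK2Tower
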