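import Pool.Agent.LibK2Tower.Stable2
import Pool.Agent.LibK2Tower.Quintic2

/-!
Extensions of degree five generated by an element with `θ ^ q = θ`.
-/

set_option autoImplicit false

open Module Polynomial

namespace Pool.Agent.LibK2Tower

open Pool.Agent.LibDivBr

section

variable {F E : Type*} [Field F] [Field E] [Algebra F E] {S : ℕ → E → E → Prop}

theorem exists_stable_of_const (hE : finrank F E = 5) {θ : E}
    (hθ : ∀ f : F, algebraMap F E f ≠ θ) {q : ℕ}
    (hlin : ∀ x y : E, (x + y) ^ q = x ^ q + y ^ q) (hq : θ ^ q = θ) :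
    ∃ W : Submodule F E, finrank F W = 3 ∧ ∀ x ∈ W, x ^ q ∈ W := by
  let φ : (Fin 3 → F) →ₗ[F] E :=
    { toFun := fun v => quad θ v
      map_add' := by
        intro u v
        simp only [quad, Pi.add_apply, map_add]
        ring
      map_smul' := by
        intro r v
        simp only [quad, Pi.smul_apply, smul_eq_mul, map_mul, RingHom.id_apply,
          Algebra.smul_def]
        ring }
  have hinj : Function.Injective φ := by
    rw [← LinearMap.ker_eq_bot, LinearMap.ker_eq_bot']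
    intro v hv
    exact quad_eq_zero hE hθ hv
  refine ⟨LinearMap.range φ, ?_, ?_⟩
  · rw [LinearMap.finrank_range_of_inj hinj, finrank_fintype_fun_eq_card, Fintype.card_fin]
  · rintro _ ⟨v, rfl⟩
    refine ⟨fun i => v i ^ q, ?_⟩
    change quad θ (fun i => v i ^ q) = quad θ v ^ q
    simp only [quad, map_pow]
    rw [hlin, hlin, mul_pow, mul_pow, ← pow_mul, mul_comm 2 q, pow_mul, hq]

/-- Extensions of degree 5 generated by an element with `θ ^ q = θ`, `q = p ^ r`. -/
theorem Rel.of_const_five (h : Rel F E S) (hE : finrank F E = 5) {p r : ℕ}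
    [CharP F p] (hp : p.Prime) {θ : E} (hθ : ∀ f : F, algebraMap F E f ≠ θ)
    (hq : θ ^ p ^ r = θ) {u v : E} (hu : u ≠ 0) (hv : v ≠ 0) :
    S (p ^ r * (p ^ r * (p ^ r - 1))) u v := by
  have hfin : FiniteDimensional F E := FiniteDimensional.of_finrank_pos (by omega)
  have hchar : CharP E p := charP_of_injective_algebraMap (algebraMap F E).injective p
  have hfact : Fact p.Prime := ⟨hp⟩
  have hlin : ∀ x y : E, (x + y) ^ p ^ r = x ^ p ^ r + y ^ p ^ r := fun x y =>
    add_pow_char_pow x y p r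
  obtain ⟨W, hW, hWq⟩ := exists_stable_of_const hE hθ hlin hq
  exact h.of_stable (Nat.one_le_pow _ _ hp.pos) hlin W hW hWq (by omega) hfin hu hv

end

universe u

theorem K2_const_five {F E : Type u} [Field F] [Field E] [Algebra F E]
    {p r : ℕ} [CharP F p] (hp : p.Prime) (hE : finrank F E = 5) {θ : E}
    (hθ : ∀ f : F, algebraMap F E f ≠ θ) (hq : θ ^ p ^ r = θ) (x : K2 E) :
    ((p ^ r) ^ 2 * (p ^ r - 1)) • x ∈ baseSymbols F E := by
  rw [sq, mul_assoc]
  apply smul_mem_baseSymbols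
  intro G _ c hc hF u v
  have h1 := (hc.rel hF).of_const_five hE hp hθ hq u.ne_zero v.ne_zero u.ne_zero v.ne_zero
  simpa using h1

theorem ne_char_of_prim {E : Type*} [Field E] {l p : ℕ} (hl : l.Prime) (hp : p.Prime)
    [CharP E p] {ζ : E} (hζ : IsPrimitiveRoot ζ l) : l ≠ p := by
  have hfact : Fact p.Prime := ⟨hp⟩
  rintro rfl
  have h1 : (ζ - 1) ^ l = 0 := by
    have h2 : ((ζ - 1) + 1) ^ l = (ζ - 1) ^ l + 1 ^ l := add_pow_char _ _ l
    rw [sub_add_cancel, hζ.pow_eq_one, one_pow] at h2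
    linear_combination -h2
  have h2 : ζ = 1 := sub_eq_zero.1 (pow_eq_zero_iff hl.ne_zero |>.1 h1)
  have h3 := hζ.dvd_of_pow_eq_one 1 (by rw [h2, one_pow])
  exact hl.one_lt.ne' (Nat.dvd_one.1 h3)

/-- Cyclic algebras of degree `l` over `F(ζ_l)` split. -/
theorem cyclicTrivial_const {F E : Type} [Field F] [Field E] [Algebra F E] {l : ℕ}
    (hc : IsCyclotomicExtension {l} F E) (hl : l.Prime) (hE : finrank F E = 5) {p r : ℕ}
    [CharP F p] (hp : p.Prime) {θ : E} (hθ : ∀ f : F, algebraMap F E f ≠ θ)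
    (hq : θ ^ p ^ r = θ) (hlr : ¬ l ∣ p ^ r - 1)
    (hF : ∀ a : F, ∃ b : F, b ^ l = a) : CyclicTrivial E l := by
  have hne : NeZero l := ⟨hl.ne_zero⟩
  have hchar : CharP E p := charP_of_injective_algebraMap (algebraMap F E).injective p
  have hζ := IsCyclotomicExtension.zeta_spec l F E
  have hlp : l ≠ p := ne_char_of_prim hl hp hζ
  have hnp : ¬ l ∣ p ^ r := fun h =>
    hlp ((Nat.prime_dvd_prime_iff_eq hl hp).1 (hl.dvd_of_dvd_pow h))
  refine cyclicTrivial_of_NR hl ⟨_, hζ⟩ ?_
  intro u v hu hv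
  refine (NR.rel hl hζ hF).of_const_five hE hp hθ hq hu hv ?_
  refine Nat.Coprime.symm ((Nat.Prime.coprime_iff_not_dvd hl).2 ?_)
  intro h
  rcases hl.dvd_mul.1 h with h | h
  · exact hnp h
  · rcases hl.dvd_mul.1 h with h | h
    · exact hnp h
    · exact hlr h

end Pool.Agent.LibK2Tower
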