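import Pool.Agent.LibK2Tower.Tower
import Pool.Agent.LibDivBr.Defs

/-!
Symmetry of the norm residue relation: if `v` is a norm from `E(u ^ (1 / l))`, then `u` is a norm
from `E(v ^ (1 / l))`.
-/

set_option autoImplicit false

open Polynomial Module IntermediateField

namespace Pool.Agent.LibK2Tower

open Pool.Agent.LibDivBr

section sym

variable {E : Type*} [Field E] {l : ℕ}

theorem comm_aeval {V : Type*} [AddCommGroup V] [Module E V] {η : E} {T Y : Module.End E V}
    (hTY : Y * T = η • (T * Y)) (p : E[X]) :
    Y * aeval T p = aeval T (p.comp (C η * X)) * Y := by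
  induction p using Polynomial.induction_on' with
  | add p q hp hq => rw [map_add, mul_add, hp, hq, add_comp, map_add, add_mul]
  | monomial n a =>
    have h1 : ∀ n : ℕ, Y * T ^ n = η ^ n • (T ^ n * Y) := by
      intro n
      induction n with
      | zero => simp
      | succ n ih =>
        rw [pow_succ, ← mul_assoc, ih, smul_mul_assoc, mul_assoc, hTY, mul_smul_comm, smul_smul,
          ← mul_assoc, ← pow_succ, ← pow_succ]
    have h2 : aeval T (C a * (C η * X) ^ n) = a • (η ^ n • T ^ n) := by
      rw [mul_pow, ← C_pow, map_mul, map_mul, aeval_C, aeval_C, map_pow (aeval T) X n, aeval_X,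
        Algebra.smul_def, Algebra.smul_def]
    rw [monomial_comp, aeval_monomial, h2, ← Algebra.smul_def, mul_smul_comm, h1, smul_mul_assoc,
      smul_mul_assoc]

theorem exists_poly_of_end {V : Type*} [AddCommGroup V] [Module E V] (hl : l.Prime)
    (hV : finrank E V = l) {η u v : E} {T Y : Module.End E V}
    (hT : T ^ l = algebraMap E _ v) (hY : Y ^ l = algebraMap E _ u)
    (hTY : Y * T = η • (T * Y)) (hirr : Irreducible (X ^ l - C v : E[X])) :
    ∃ c : E[X], (X ^ l - C v) ∣ (∏ i ∈ Finset.range l, c.comp (C (η ^ i) * X)) - C u := by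
  have hfin : FiniteDimensional E V := FiniteDimensional.of_finrank_pos (by rw [hV]; exact hl.pos)
  have hnt : Nontrivial V := Module.nontrivial_of_finrank_pos (R := E) (by rw [hV]; exact hl.pos)
  obtain ⟨e, he⟩ := exists_ne (0 : V)
  have hf0 : aeval T (X ^ l - C v : E[X]) = 0 := by
    rw [map_sub, map_pow, aeval_X, aeval_C, hT, sub_self]
  have key : ∀ p : E[X], (aeval T p) e = 0 → (X ^ l - C v) ∣ p := by
    intro p hp
    by_contra hnd
    obtain ⟨a, b, hab⟩ := (hirr.coprime_iff_not_dvd).2 hnd
    have h1 := congrArg (fun q => (aeval T q) e) hab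
    simp only [map_add, map_mul, hf0, mul_zero, zero_add, map_one] at h1
    rw [Module.End.mul_apply, hp, map_zero, Module.End.one_apply] at h1
    exact he h1.symm
  let φ : degreeLT E l →ₗ[E] V :=
    (LinearMap.applyₗ e) ∘ₗ (Polynomial.aeval T).toLinearMap ∘ₗ (degreeLT E l).subtype
  have hφ : ∀ p, φ p = (aeval T (p : E[X])) e := fun p => rfl
  have hfd : FiniteDimensional E (degreeLT E l) := (degreeLTEquiv E l).symm.finiteDimensional
  have hinj : Function.Injective φ := by
    rw [← LinearMap.ker_eq_bot, Submodule.eq_bot_iff]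
    intro p hp
    have h1 := key p (by rw [← hφ]; exact hp)
    by_contra hp0
    have hp0' : (p : E[X]) ≠ 0 := fun h => hp0 (Subtype.ext h)
    have h2 := Polynomial.degree_le_of_dvd h1 hp0'
    have h3 := mem_degreeLT.1 p.2
    rw [degree_X_pow_sub_C hl.pos] at h2
    exact absurd (lt_of_lt_of_le h3 h2) (lt_irrefl _)
  have hdim : finrank E (degreeLT E l) = finrank E V := by
    rw [(degreeLTEquiv E l).finrank_eq, hV]; simp
  obtain ⟨⟨c, hc⟩, hcY⟩ := (LinearMap.injective_iff_surjective_of_finrank_eq_finrank hdim).1 hinj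
    (Y e)
  rw [hφ] at hcY
  refine ⟨c, ?_⟩
  apply key
  have h1 : ∀ j : ℕ, (Y ^ j) e =
      (aeval T (∏ i ∈ Finset.range j, c.comp (C (η ^ i) * X))) e := by
    intro j
    induction j with
    | zero => simp
    | succ j ih =>
      rw [pow_succ', Module.End.mul_apply, ih]
      have h2 := LinearMap.congr_fun
        (comm_aeval hTY (∏ i ∈ Finset.range j, c.comp (C (η ^ i) * X))) e
      rw [Module.End.mul_apply, Module.End.mul_apply] at h2
      rw [h2, ← hcY, ← Module.End.mul_apply, ← map_mul, Finset.prod_range_succ']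
      congr 3
      · rw [Polynomial.prod_comp]
        refine Finset.prod_congr rfl fun i _ => ?_
        rw [comp_assoc]
        congr 1
        simp only [mul_comp, C_comp, X_comp]
        rw [← mul_assoc, ← C_mul, pow_succ]
      · simp
  have h2 := h1 l
  rw [map_sub, LinearMap.sub_apply, ← h2, hY, aeval_C, sub_self]

end sym

end Pool.Agent.LibK2Tower
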