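import Pool.Agent.LibK2Tower.Rel

/-!
Towers `F ⊂ K ⊂ E` with `[K : F] = 2` and `[E : K] = 2` or `3`.
-/

set_option autoImplicit false

open Module Polynomial

namespace Pool.Agent.LibK2Tower

section

variable {K E : Type*} [Field K] [Field E] [Algebra K E]

theorem exists_pair (hK : finrank K E = 2) {q : E} (hq : ∀ f : K, algebraMap K E f ≠ q) (w : E) :
    ∃ x y : K, w = algebraMap K E x + algebraMap K E y * q := by
  have hfin : FiniteDimensional K E := FiniteDimensional.of_finrank_pos (by omega)
  have hli : LinearIndependent K ![1, q] := by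
    rw [LinearIndependent.pair_iff]
    intro c d hcd
    rw [Algebra.smul_def, Algebra.smul_def, mul_one] at hcd
    rcases eq_or_ne d 0 with rfl | hd
    · rw [map_zero, zero_mul, add_zero] at hcd
      exact ⟨(map_eq_zero_iff _ (algebraMap K E).injective).1 hcd, rfl⟩
    · exfalso
      apply hq (-c / d)
      have hdK : algebraMap K E d ≠ 0 := by
        intro h0; apply hd; exact (map_eq_zero_iff _ (algebraMap K E).injective).1 h0
      rw [map_div₀, map_neg, div_eq_iff hdK]
      linear_combination -hcd
  have hspan := hli.span_eq_top_of_card_eq_finrank (by simp [hK])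
  have hmem : w ∈ Submodule.span K (Set.range ![1, q]) := by
    rw [hspan]; trivial
  rw [Matrix.range_cons, Matrix.range_cons, Matrix.range_empty, Set.union_empty,
    Set.singleton_union, Submodule.mem_span_pair] at hmem
  obtain ⟨x, y, hxy⟩ := hmem
  refine ⟨x, y, ?_⟩
  rw [← hxy, Algebra.smul_def, Algebra.smul_def, mul_one]

/-- In a cubic extension, an element of trace zero is a root of a trinomial `X ^ 3 + s X - t`. -/
theorem trinomial_of_trace_zero (hE : finrank K E = 3) {z : E} (hz : z ≠ 0)
    (htr : Algebra.trace K E z = 0) :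
    ∃ s t : K, t ≠ 0 ∧ z ^ 3 + algebraMap K E s * z ^ 1 = algebraMap K E t := by
  classical
  have hfin : FiniteDimensional K E := FiniteDimensional.of_finrank_pos (by omega)
  let b := finBasisOfFinrankEq K E hE
  set M := Algebra.leftMulMatrix b z with hM
  set p := M.charpoly with hp
  have hdeg : p.natDegree = 3 := by
    rw [hp, Matrix.charpoly_natDegree_eq_dim]; simp
  have hmon : p.Monic := M.charpoly_monic
  have h2 : p.coeff 2 = 0 := by
    have h3 := Matrix.trace_eq_neg_charpoly_coeff M
    rw [← Algebra.trace_eq_matrix_trace b z, htr] at h3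
    simp only [Fintype.card_fin] at h3
    exact (neg_eq_zero.1 h3.symm)
  have h0 : p.coeff 0 ≠ 0 := by
    intro h4
    have h3 := Matrix.det_eq_sign_charpoly_coeff M
    rw [← hp, h4, mul_zero, hM, ← Algebra.norm_eq_matrix_det b z] at h3
    exact hz (Algebra.norm_eq_zero_iff.1 h3)
  have h3 : p.coeff 3 = 1 := by
    have := hmon.coeff_natDegree
    rwa [hdeg] at this
  have haev : aeval z p = 0 := by
    apply Algebra.leftMulMatrix_injective b
    rw [map_zero, ← Polynomial.aeval_algHom_apply]
    exact Matrix.aeval_self_charpoly M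
  rw [Polynomial.aeval_eq_sum_range, hdeg, Finset.sum_range_succ, Finset.sum_range_succ,
    Finset.sum_range_succ, Finset.sum_range_one, h2, h3] at haev
  refine ⟨p.coeff 1, -p.coeff 0, neg_ne_zero.2 h0, ?_⟩
  rw [map_neg]
  simp only [Algebra.smul_def, map_zero, map_one, zero_mul, one_mul, add_zero, pow_zero,
    mul_one] at haev
  linear_combination haev

/-- Every element of a cubic extension is a quotient of elements of trace zero. -/
theorem exists_quotient_trace_zero (hE : finrank K E = 3) (z : E) :
    ∃ w : E, w ≠ 0 ∧ Algebra.trace K E w = 0 ∧ Algebra.trace K E (z * w) = 0 := by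
  have hfin : FiniteDimensional K E := FiniteDimensional.of_finrank_pos (by omega)
  let φ : E →ₗ[K] K × K :=
    (Algebra.trace K E).prod ((Algebra.trace K E) ∘ₗ (LinearMap.mulLeft K z))
  have hker : LinearMap.ker φ ≠ ⊥ := by
    intro hk
    have h1 := LinearMap.finrank_le_finrank_of_injective (LinearMap.ker_eq_bot.1 hk)
    rw [hE, finrank_prod, finrank_self] at h1
    omega
  obtain ⟨w, hw, hw0⟩ := Submodule.exists_mem_ne_zero_of_ne_bot hker
  refine ⟨w, hw0, ?_, ?_⟩
  · have := congrArg Prod.fst (LinearMap.mem_ker.1 hw)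
    simpa [φ] using this
  · have := congrArg Prod.snd (LinearMap.mem_ker.1 hw)
    simpa [φ] using this

end

section tower

variable {F K E : Type*} [Field F] [Field K] [Field E] [Algebra F K] [Algebra K E] [Algebra F E]
  [IsScalarTower F K E] {S : ℕ → E → E → Prop}

theorem Rel.inner (h : Rel F E S) (hK : finrank F K = 2) (n : ℕ) {a b : K} (ha : a ≠ 0)
    (hb : b ≠ 0) : S n (algebraMap K E a) (algebraMap K E b) := by
  have hfin : FiniteDimensional F K := FiniteDimensional.of_finrank_pos (by omega)
  exact h.up n ((h.restrict (K := K)).all_of_le_three (by omega) ha hb)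

theorem Rel.of_quadratic_tower (h : Rel F E S) (hK : finrank F K = 2) (hE : finrank K E = 2)
    {u v : E} (hu : u ≠ 0) (hv : v ≠ 0) : S 2 u v := by
  have hfin : FiniteDimensional K E := FiniteDimensional.of_finrank_pos (by omega)
  have hinj := (algebraMap K E).injective
  have h0 : ∀ {a : K}, a ≠ 0 → algebraMap K E a ≠ 0 := fun ha h1 =>
    ha ((map_eq_zero_iff _ hinj).1 h1)
  have hKE : ∀ (a : K) (z : E), a ≠ 0 → z ≠ 0 → S 2 (algebraMap K E a) z := by
    intro a z ha hz
    by_cases hzK : ∃ b : K, algebraMap K E b = z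
    · obtain ⟨b, rfl⟩ := hzK
      exact h.inner hK 2 ha (fun hb => hz (by rw [hb, map_zero]))
    · push Not at hzK
      obtain ⟨x, y, hxy⟩ := exists_pair hE hzK (z ^ 2)
      have hx : x ≠ 0 := by
        rintro rfl
        rw [map_zero, zero_add, sq] at hxy
        exact hzK y (mul_right_cancel₀ hz hxy).symm
      have h1 := h.trinomial hK hz (m := 2) (k := 1) (by norm_num) (-y) x hx
        (by rw [map_neg]; linear_combination hxy) ha
      exact h.symm _ _ _ hz (h0 ha) h1
  have h2 := (h.change 2 hKE).all_of_le_three (by omega) hu hv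
  exact h2

theorem Rel.of_cubic_tower (h : Rel F E S) (hK : finrank F K = 2) (hE : finrank K E = 3)
    {u v : E} (hu : u ≠ 0) (hv : v ≠ 0) : S 6 u v := by
  have hfin : FiniteDimensional K E := FiniteDimensional.of_finrank_pos (by omega)
  have hinj := (algebraMap K E).injective
  have h0 : ∀ {a : K}, a ≠ 0 → algebraMap K E a ≠ 0 := fun ha h1 =>
    ha ((map_eq_zero_iff _ hinj).1 h1)
  have htr : ∀ (a : K) (z : E), a ≠ 0 → z ≠ 0 → Algebra.trace K E z = 0 →
      S 6 (algebraMap K E a) z := by
    intro a z ha hz hz0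
    obtain ⟨s, t, ht, hst⟩ := trinomial_of_trace_zero hE hz hz0
    have h1 := h.trinomial hK hz (m := 3) (k := 1) (by norm_num) s t ht hst ha
    exact h.symm _ _ _ hz (h0 ha) h1
  have hKE : ∀ (a : K) (z : E), a ≠ 0 → z ≠ 0 → S 6 (algebraMap K E a) z := by
    intro a z ha hz
    obtain ⟨w, hw, hw1, hw2⟩ := exists_quotient_trace_zero hE z
    have h1 := htr a w ha hw hw1
    have h2 := htr a (z * w) ha (mul_ne_zero hz hw) hw2
    have h3 := h.div' (mul_ne_zero hz hw) hw (h0 ha) h2 h1
    rwa [mul_div_assoc, div_self hw, mul_one] at h3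
  exact (h.change 6 hKE).all_of_le_three (by omega) hu hv

end tower

end Pool.Agent.LibK2Tower
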